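import Pool.Agent.H47.SP.Real

set_option autoImplicit false

/-!
# Nested cycles: if only countably many fibres are nondegenerate
-/

open Set Metric Real MeasureTheory N62a1eb23 Filter Topology

namespace Pool.Agent.H47.SP

/-- A nested sequence of cycles of compact connected sets. -/
structure Nest (c : ℂ) (p : ℕ → ℕ) (K : ℕ → Set ℂ) : Prop where
  mono : StrictMono p
  pos : 1 ≤ p 0
  dvd : ∀ m, p m ∣ p (m + 1)
  comp : ∀ m, IsCompact (K m)
  conn : ∀ m, IsPreconnected (K m)
  zero : ∀ m, (0 : ℂ) ∈ K m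
  maps : ∀ m, MapsTo ((fun z : ℂ => z ^ 2 + c)^[p m]) (K m) (K m)
  sub : ∀ m, K (m + 1) ⊆ K m

/-- an address: a compatible sequence of residues modulo `p m` -/
def Address (p : ℕ → ℕ) (x : ℕ → ℕ) : Prop := ∀ m, x m < p m ∧ x (m + 1) % p m = x m

/-- the fibre with a given address -/
def fibre (c : ℂ) (K : ℕ → Set ℂ) (x : ℕ → ℕ) : Set ℂ :=
  ⋂ m, (fun z : ℂ => z ^ 2 + c)^[x m] '' K m

section

variable {c : ℂ} {p : ℕ → ℕ} {K : ℕ → Set ℂ}

theorem Nest.one_le (h : Nest c p K) (m : ℕ) : 1 ≤ p m :=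
  h.pos.trans (h.mono.monotone (Nat.zero_le m))

theorem Nest.dvd' (h : Nest c p K) {m n : ℕ} (hmn : m ≤ n) : p m ∣ p n := by
  induction n, hmn using Nat.le_induction with
  | base => exact dvd_rfl
  | succ n _ ih => exact ih.trans (h.dvd n)

theorem Nest.sub' (h : Nest c p K) {m n : ℕ} (hmn : m ≤ n) : K n ⊆ K m := by
  induction n, hmn using Nat.le_induction with
  | base => exact subset_rfl
  | succ n _ ih => exact (h.sub n).trans ih

theorem maps_mul {q : ℕ} {K : Set ℂ} (h : MapsTo ((fun z : ℂ => z ^ 2 + c)^[q]) K K) (k : ℕ) :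
    MapsTo ((fun z : ℂ => z ^ 2 + c)^[q * k]) K K := by
  rw [Function.iterate_mul]
  exact h.iterate k

/-- the pieces are nested -/
theorem Nest.image_sub (h : Nest c p K) {m n : ℕ} (hmn : m ≤ n) (i : ℕ) :
    (fun z : ℂ => z ^ 2 + c)^[i] '' K n ⊆ (fun z : ℂ => z ^ 2 + c)^[i % p m] '' K m := by
  rintro _ ⟨z, hz, rfl⟩
  refine ⟨(fun z : ℂ => z ^ 2 + c)^[p m * (i / p m)] z, maps_mul (h.maps m) _ (h.sub' hmn hz), ?_⟩
  rw [← Function.iterate_add_apply, Nat.mod_add_div]

theorem card_residue {q P : ℕ} (hq : 1 ≤ q) (hd : q ∣ P) (a : ℕ) :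
    ((Finset.range P).filter (fun i => i % q = a)).card * q ≤ P := by
  obtain ⟨k, rfl⟩ := hd
  have h1 : ((Finset.range (q * k)).filter (fun i => i % q = a)).card ≤ (Finset.range k).card := by
    apply Finset.card_le_card_of_injOn (fun i => i / q)
    · intro i hi
      simp only [Finset.coe_filter, Finset.mem_range, mem_ofPred_eq] at hi
      simp only [Finset.coe_range, mem_Iio]
      exact Nat.div_lt_of_lt_mul hi.1
    · intro i hi j hj hij
      simp only [Finset.coe_filter, Finset.mem_range, mem_ofPred_eq] at hi hj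
      have hij' : i / q = j / q := hij
      have h4 := Nat.mod_add_div i q
      have h5 := Nat.mod_add_div j q
      rw [hi.2, hij'] at h4
      rw [hj.2] at h5
      omega
  rw [Finset.card_range] at h1
  rw [Nat.mul_comm]
  exact Nat.mul_le_mul_left _ h1

/-- an infinite branch -/
theorem konig {T : ℕ → Finset ℕ} {q : ℕ → ℕ} (hne : ∀ m, (T m).Nonempty)
    (hmono : ∀ m n, m ≤ n → ∀ i ∈ T n, i % q m ∈ T m)
    (hmod : ∀ m n, m ≤ n → ∀ i, i % q n % q m = i % q m) :
    ∃ x : ℕ → ℕ, (∀ m, x m ∈ T m) ∧ ∀ m n, m ≤ n → x n % q m = x m := by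
  choose t ht using hne
  obtain ⟨U, hU⟩ : ∃ U : Ultrafilter ℕ, (U : Filter ℕ) ≤ atTop :=
    ⟨Filter.hyperfilter ℕ, by
      rw [← Nat.cofinite_eq_atTop]
      exact Filter.hyperfilter_le_cofinite⟩
  have h1 : ∀ m, ∃ i ∈ T m, ∀ᶠ n in (U : Filter ℕ), t n % q m = i := by
    intro m
    have h2 : ∀ᶠ n in (U : Filter ℕ), ∃ i ∈ ((T m : Finset ℕ) : Set ℕ), t n % q m = i := by
      have h3 : ∀ᶠ n in (U : Filter ℕ), m ≤ n := hU (eventually_ge_atTop m)
      filter_upwards [h3] with n hn
      exact ⟨_, hmono m n hn _ (ht n), rfl⟩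
    have h3 := (Ultrafilter.eventually_exists_mem_iff (T m).finite_toSet).1 h2
    exact h3
  choose x hx1 hx2 using h1
  refine ⟨x, hx1, fun m n hmn => ?_⟩
  obtain ⟨N, hN1, hN2⟩ := ((hx2 m).and (hx2 n)).exists
  rw [← hN2, hmod m n hmn, hN1]

/-- **If only countably many fibres are nondegenerate, the growth is subexponential.** -/
theorem sub_of_countable (h : Nest c p K)
    (hcount : {x : ℕ → ℕ | Address p x ∧ ¬ (fibre c K x).Subsingleton}.Countable) : Sub c := by
  classical
  have hcM : c ∈ multibrotSet 2 :=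
    mem_of_bounded (h.one_le 0) (h.comp 0).isBounded (h.zero 0) (h.maps 0)
  by_contra hcon
  obtain ⟨r, hr, hf⟩ := few_small hcM hcon (η := 1 / 4) (by norm_num)
  obtain ⟨y, hy⟩ : ∃ y : ℕ → ℕ → ℕ,
      {x : ℕ → ℕ | Address p x ∧ ¬ (fibre c K x).Subsingleton} ⊆ range y := by
    rcases Set.eq_empty_or_nonempty {x : ℕ → ℕ | Address p x ∧ ¬ (fibre c K x).Subsingleton} with
      h1 | h1
    · exact ⟨fun _ _ => 0, by rw [h1]; exact empty_subset _⟩
    · obtain ⟨y, hy⟩ := hcount.exists_eq_range h1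
      exact ⟨y, hy.subset⟩
  -- levels
  have hlev : ∀ k : ℕ, 2 ^ (k + 3) ≤ p (2 ^ (k + 3)) := fun k => h.mono.le_apply
  obtain ⟨l, hl⟩ : ∃ l : ℕ → ℕ, l = fun k => 2 ^ (k + 3) := ⟨_, rfl⟩
  have hlk : ∀ k, k ≤ l k := by
    intro k
    rw [hl]
    have h1 : k < 2 ^ k := Nat.lt_two_pow_self
    have h2 : 2 ^ k ≤ 2 ^ (k + 3) := Nat.pow_le_pow_right (by norm_num) (by omega)
    show k ≤ 2 ^ (k + 3)
    omega
  -- the large pieces
  obtain ⟨Lg, hLg⟩ : ∃ Lg : ℕ → ℕ → Prop,
      Lg = fun m i => ¬ Small r ((fun z : ℂ => z ^ 2 + c)^[i] '' K m) := ⟨_, rfl⟩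
  obtain ⟨T, hT⟩ : ∃ T : ℕ → Finset ℕ, T = fun m => (Finset.range (p m)).filter
      (fun i => Lg m i ∧ ∀ k, l k ≤ m → i % p (l k) ≠ y k (l k)) := ⟨_, rfl⟩
  have hLgmono : ∀ m n, m ≤ n → ∀ i, Lg n i → Lg m (i % p m) := by
    intro m n hmn i hi
    rw [hLg] at hi ⊢
    intro hs
    apply hi
    intro z hz w hw
    exact hs z (h.image_sub hmn i hz) w (h.image_sub hmn i hw)
  have hTmono : ∀ m n, m ≤ n → ∀ i ∈ T n, i % p m ∈ T m := by
    intro m n hmn i hi
    rw [hT] at hi ⊢
    simp only [Finset.mem_filter, Finset.mem_range] at hi ⊢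
    refine ⟨Nat.mod_lt _ (h.one_le m), hLgmono m n hmn i hi.2.1, ?_⟩
    intro k hk
    rw [Nat.mod_mod_of_dvd _ (h.dvd' hk)]
    exact hi.2.2 k (hk.trans hmn)
  have hTne : ∀ m, (T m).Nonempty := by
    intro m
    by_contra hemp
    rw [Finset.not_nonempty_iff_eq_empty] at hemp
    have hcov : Finset.range (p m) ⊆ ((Finset.range (p m)).filter (fun i => ¬ Lg m i)) ∪
        (Finset.range (m + 1)).biUnion (fun k => (Finset.range (p m)).filter
          (fun i => l k ≤ m ∧ i % p (l k) = y k (l k))) := by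
      intro i hi
      have h1 : i ∉ T m := by rw [hemp]; simp
      rw [hT] at h1
      simp only [Finset.mem_filter, not_and] at h1
      by_cases h2 : Lg m i
      · have h3 := h1 hi h2
        push Not at h3
        obtain ⟨k, hk1, hk2⟩ := h3
        refine Finset.mem_union_right _ (Finset.mem_biUnion.2 ⟨k, ?_, ?_⟩)
        · rw [Finset.mem_range]
          have := hlk k
          omega
        · exact Finset.mem_filter.2 ⟨hi, hk1, hk2⟩
      · exact Finset.mem_union_left _ (Finset.mem_filter.2 ⟨hi, h2⟩)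
    have h1 := Finset.card_le_card hcov
    rw [Finset.card_range] at h1
    have h2 := Finset.card_union_le ((Finset.range (p m)).filter (fun i => ¬ Lg m i))
      ((Finset.range (m + 1)).biUnion (fun k => (Finset.range (p m)).filter
          (fun i => l k ≤ m ∧ i % p (l k) = y k (l k))))
    have h3 := Finset.card_biUnion_le (s := Finset.range (m + 1))
      (t := fun k => (Finset.range (p m)).filter (fun i => l k ≤ m ∧ i % p (l k) = y k (l k)))
    have h4 := hf (p m) _ (h.one_le m) (cyc_Cyc (h.one_le m) (h.conn m) (h.zero m) (h.maps m))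
    have h5 : smallCount r (p m) (cyc c (p m) (K m)) =
        ((Finset.range (p m)).filter (fun i => ¬ Lg m i)).card := by
      unfold smallCount
      congr 1
      apply Finset.filter_congr
      intro i hi
      rw [hLg]
      unfold cyc
      rw [Nat.mod_eq_of_lt (Finset.mem_range.1 hi), not_not]
    rw [h5] at h4
    have h6 : ∀ k : ℕ, (((Finset.range (p m)).filter
        (fun i => l k ≤ m ∧ i % p (l k) = y k (l k))).card : ℝ) ≤ (p m : ℝ) * (1 / 8 * (1 / 2) ^ k) := by
      intro k
      by_cases hk : l k ≤ m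
      · have h7 : ((Finset.range (p m)).filter (fun i => l k ≤ m ∧ i % p (l k) = y k (l k))) =
            (Finset.range (p m)).filter (fun i => i % p (l k) = y k (l k)) := by
          apply Finset.filter_congr
          intro i _
          simp [hk]
        rw [h7]
        have h8 := card_residue (h.one_le (l k)) (h.dvd' hk) (y k (l k))
        have h9 : 2 ^ (k + 3) ≤ p (l k) := by rw [hl]; exact hlev k
        have h10 := (Nat.mul_le_mul_left (((Finset.range (p m)).filter
          (fun i => i % p (l k) = y k (l k))).card) h9).trans h8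
        have h11 : (((Finset.range (p m)).filter
          (fun i => i % p (l k) = y k (l k))).card : ℝ) * 2 ^ (k + 3) ≤ p m := by
          exact_mod_cast h10
        have h12 : (1 : ℝ) / 8 * (1 / 2) ^ k * 2 ^ (k + 3) = 1 := by
          rw [pow_add, one_div_pow]
          field_simp
          norm_num
        have h13 : (0 : ℝ) < 2 ^ (k + 3) := by positivity
        refine le_of_mul_le_mul_right ?_ h13
        rw [mul_assoc, h12, mul_one]
        exact h11
      · have h7 : ((Finset.range (p m)).filter (fun i => l k ≤ m ∧ i % p (l k) = y k (l k))) = ∅ := by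
          apply Finset.filter_false_of_mem
          intro i _ h8
          exact hk h8.1
        rw [h7]
        simp only [Finset.card_empty, Nat.cast_zero]
        positivity
    have h7 : ((∑ k ∈ Finset.range (m + 1), ((Finset.range (p m)).filter
        (fun i => l k ≤ m ∧ i % p (l k) = y k (l k))).card : ℕ) : ℝ) ≤
        (p m : ℝ) * (1 / 4) := by
      rw [Nat.cast_sum]
      refine (Finset.sum_le_sum fun k _ => h6 k).trans ?_
      rw [← Finset.mul_sum, ← Finset.mul_sum]
      apply mul_le_mul_of_nonneg_left _ (Nat.cast_nonneg _)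
      have h8 : ∑ i ∈ Finset.range (m + 1), (1 / 2 : ℝ) ^ i ≤ 2 := by
        have h9 := (summable_geometric_two).sum_le_tsum (Finset.range (m + 1))
          (fun i _ => by positivity)
        rw [tsum_geometric_two] at h9
        exact h9
      linarith
    have h8 : p m ≤ ((Finset.range (p m)).filter (fun i => ¬ Lg m i)).card +
        ∑ k ∈ Finset.range (m + 1), ((Finset.range (p m)).filter
        (fun i => l k ≤ m ∧ i % p (l k) = y k (l k))).card := by omega
    have h9 : (p m : ℝ) ≤ (((Finset.range (p m)).filter (fun i => ¬ Lg m i)).card : ℝ) +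
        ((∑ k ∈ Finset.range (m + 1), ((Finset.range (p m)).filter
        (fun i => l k ≤ m ∧ i % p (l k) = y k (l k))).card : ℕ) : ℝ) := by exact_mod_cast h8
    have h10 : (1 : ℝ) ≤ p m := by exact_mod_cast h.one_le m
    linarith
  -- an infinite branch
  obtain ⟨x, hx1, hx2⟩ : ∃ x : ℕ → ℕ, (∀ m, x m ∈ T m) ∧ ∀ m n, m ≤ n → x n % p m = x m :=
    konig hTne hTmono (fun m n hmn i => Nat.mod_mod_of_dvd _ (h.dvd' hmn))
  have hxT : ∀ m, x m < p m ∧ Lg m (x m) ∧ ∀ k, l k ≤ m → x m % p (l k) ≠ y k (l k) := by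
    intro m
    have h1 := hx1 m
    rw [hT] at h1
    simpa only [Finset.mem_filter, Finset.mem_range] using h1
  have haddr : Address p x := fun m => ⟨(hxT m).1, hx2 m (m + 1) (by omega)⟩
  have hxnot : ¬ (fibre c K x).Subsingleton := by
    -- pairs of points at distance at least `r`
    have hne : (⋂ m, {q : ℂ × ℂ | q ∈ ((fun z : ℂ => z ^ 2 + c)^[x m] '' K m) ×ˢ
        ((fun z : ℂ => z ^ 2 + c)^[x m] '' K m) ∧ r ≤ dist q.1 q.2}).Nonempty := by
      apply IsCompact.nonempty_iInter_of_sequence_nonempty_isCompact_isClosed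
      · intro m q hq
        have h1 : (fun z : ℂ => z ^ 2 + c)^[x (m + 1)] '' K (m + 1) ⊆
            (fun z : ℂ => z ^ 2 + c)^[x m] '' K m := by
          have h2 := h.image_sub (Nat.le_succ m) (x (m + 1))
          rwa [hx2 m (m + 1) (by omega)] at h2
        exact ⟨⟨h1 hq.1.1, h1 hq.1.2⟩, hq.2⟩
      · intro m
        have h1 := (hxT m).2.1
        rw [hLg] at h1
        unfold Small at h1
        push Not at h1
        obtain ⟨z, hz, w, hw, hzw⟩ := h1
        exact ⟨(z, w), ⟨hz, hw⟩, hzw⟩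
      · have hK0 := (h.comp 0).image ((continuous_f c).iterate (x 0))
        exact (hK0.prod hK0).inter_right (isClosed_le continuous_const continuous_dist)
      · intro m
        have hKm := ((h.comp m).image ((continuous_f c).iterate (x m))).isClosed
        exact (hKm.prod hKm).inter (isClosed_le continuous_const continuous_dist)
    obtain ⟨⟨z, w⟩, hzw⟩ := hne
    rw [mem_iInter] at hzw
    intro hs
    have h1 : z = w := hs (mem_iInter.2 fun m => (hzw m).1.1) (mem_iInter.2 fun m => (hzw m).1.2)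
    have h2 := (hzw 0).2
    rw [h1] at h2
    simp only [dist_self] at h2
    linarith
  obtain ⟨k, hk⟩ := hy ⟨haddr, hxnot⟩
  have h1 := (hxT (l k)).2.2 k le_rfl
  apply h1
  rw [Nat.mod_eq_of_lt (hxT (l k)).1, hk]

end

end Pool.Agent.H47.SP
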