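import Pool.Agent.H47.SP.Few

set_option autoImplicit false

/-!
# Cycles given by one set; real parameters
-/

open Set Metric Real MeasureTheory N62a1eb23 Filter Topology

namespace Pool.Agent.H47.SP

open Pool.Agent.H712R2 (P P_succ P_zero fc)
open Pool.Agent.Y736.HL (LL LL_nonneg LL_self LL_succ LL_mul LL_le)

/-- the sets `K, f K, …, f^(p-1) K`, repeated periodically -/
def cyc (c : ℂ) (p : ℕ) (K : Set ℂ) (i : ℕ) : Set ℂ := (fun z : ℂ => z ^ 2 + c)^[i % p] '' K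

theorem continuous_f (c : ℂ) : Continuous (fun z : ℂ => z ^ 2 + c) := by fun_prop

theorem cyc_Cyc {c : ℂ} {p : ℕ} {K : Set ℂ} (hp : 1 ≤ p) (hK : IsPreconnected K)
    (h0 : (0 : ℂ) ∈ K) (hm : MapsTo ((fun z : ℂ => z ^ 2 + c)^[p]) K K) :
    Cyc c p (cyc c p K) where
  conn i := hK.image _ ((continuous_f c).iterate _).continuousOn
  zero := ⟨0, h0, by simp⟩
  maps i := by
    rintro _ ⟨z, hz, rfl⟩
    have e1 : ((fun z : ℂ => z ^ 2 + c)^[i % p] z) ^ 2 + c = (fun z : ℂ => z ^ 2 + c)^[i % p + 1] z := by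
      rw [Function.iterate_succ_apply']
    rw [e1]
    have h1 := Nat.mod_lt i (show 0 < p by omega)
    rcases Nat.lt_or_ge (i % p + 1) p with h2 | h2
    · have h3 : (i + 1) % p = i % p + 1 := by
        rw [Nat.add_mod]
        rcases Nat.eq_or_lt_of_le hp with h4 | h4
        · omega
        · rw [Nat.mod_eq_of_lt h4, Nat.mod_eq_of_lt h2]
      exact ⟨z, hz, by rw [h3]⟩
    · have h3 : i % p + 1 = p := by omega
      have h4 : (i + 1) % p = 0 := by
        have h5 := Nat.mod_add_div i p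
        have h6 : i + 1 = p * (i / p + 1) := by rw [Nat.mul_add]; omega
        rw [h6, Nat.mul_mod_right]
      refine ⟨(fun z : ℂ => z ^ 2 + c)^[p] z, hm hz, ?_⟩
      rw [h4, h3]
      rfl
  per i := by
    unfold cyc
    rw [Nat.add_mod_right]

open Classical in
/-- the number of the sets `f^i K`, `i < p`, of diameter less than `r` -/
noncomputable def cnt (c : ℂ) (r : ℝ) (p : ℕ) (K : Set ℂ) : ℕ :=
  ((Finset.range p).filter (fun i => ∀ z ∈ K, ∀ w ∈ K,
    dist ((fun z : ℂ => z ^ 2 + c)^[i] z) ((fun z : ℂ => z ^ 2 + c)^[i] w) < r)).card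

theorem cnt_eq (c : ℂ) (r : ℝ) (p : ℕ) (K : Set ℂ) : cnt c r p K = smallCount r p (cyc c p K) := by
  classical
  unfold cnt smallCount
  congr 1
  apply Finset.filter_congr
  intro i hi
  have h1 := Nat.mod_eq_of_lt (Finset.mem_range.1 hi)
  unfold Small cyc
  rw [h1]
  simp only [forall_mem_image]

/-- **The criterion.** -/
theorem sub_of_small {c : ℂ} (hc : c ∈ multibrotSet 2) {η : ℝ} (hη : 0 < η)
    (h : ∀ r : ℝ, 0 < r → ∃ (p : ℕ) (K : Set ℂ), 1 ≤ p ∧ IsPreconnected K ∧ (0 : ℂ) ∈ K ∧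
      MapsTo ((fun z : ℂ => z ^ 2 + c)^[p]) K K ∧ η * p ≤ cnt c r p K) : Sub c := by
  by_contra hcon
  obtain ⟨r, hr, hf⟩ := few_small hc hcon (half_pos hη)
  obtain ⟨p, K, hp, hK, h0, hm, hcount⟩ := h r hr
  have h1 := hf p _ hp (cyc_Cyc hp hK h0 hm)
  rw [← cnt_eq] at h1
  have hpR : (1 : ℝ) ≤ p := by exact_mod_cast hp
  nlinarith

/-- points whose orbits return infinitely often to a bounded set have norm at most `2` -/
theorem norm_le_two {c z : ℂ} (hc : ‖c‖ ≤ 2) {R : ℝ}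
    (h : ∃ᶠ n : ℕ in atTop, ‖(fun z : ℂ => z ^ 2 + c)^[n] z‖ ≤ R) : ‖z‖ ≤ 2 := by
  by_contra hcon
  push Not at hcon
  have key : ∀ n : ℕ, 2 + 4 ^ n * (‖z‖ - 2) ≤ ‖(fun z : ℂ => z ^ 2 + c)^[n] z‖ := by
    intro n
    induction n with
    | zero => simp
    | succ n ih =>
      rw [Function.iterate_succ_apply']
      obtain ⟨w, hw⟩ : ∃ w, w = (fun z : ℂ => z ^ 2 + c)^[n] z := ⟨_, rfl⟩
      rw [← hw] at ih ⊢
      have h1 : ‖w‖ ^ 2 - ‖c‖ ≤ ‖w ^ 2 + c‖ := by
        have := norm_sub_norm_le (w ^ 2) (-c)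
        rw [norm_neg, norm_pow, sub_neg_eq_add] at this
        exact this
      have h2 : 0 < 4 ^ n * (‖z‖ - 2) := by
        have : 0 < ‖z‖ - 2 := by linarith
        positivity
      have h3 : (4 : ℝ) ^ (n + 1) * (‖z‖ - 2) = 4 * (4 ^ n * (‖z‖ - 2)) := by ring
      rw [h3]
      nlinarith
  have h1 : Tendsto (fun n : ℕ => 2 + 4 ^ n * (‖z‖ - 2)) atTop atTop := by
    apply tendsto_atTop_add_const_left
    exact (tendsto_pow_atTop_atTop_of_one_lt (by norm_num)).atTop_mul_const (by linarith)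
  obtain ⟨n, hn1, hn2⟩ := (h.and_eventually (h1.eventually_gt_atTop R)).exists
  linarith [key n]

/-- a measure argument: disjoint sets in a set of finite measure -/
theorem card_large_le {α : Type*} [MeasurableSpace α] (μ : Measure α) {T : Set α} {B κ : ℝ}
    (hκ : 0 < κ) (hB : 0 ≤ B) (hT : μ T ≤ ENNReal.ofReal B) {I : Finset ℕ} {A : ℕ → Set α}
    (hA : ∀ i ∈ I, MeasurableSet (A i)) (hAT : ∀ i ∈ I, A i ⊆ T)
    (hd : ∀ i ∈ I, ∀ j ∈ I, i ≠ j → Disjoint (A i) (A j))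
    (hlow : ∀ i ∈ I, ENNReal.ofReal κ ≤ μ (A i)) : κ * I.card ≤ B := by
  have h1 : μ (⋃ i ∈ I, A i) = ∑ i ∈ I, μ (A i) :=
    measure_biUnion_finset (fun i hi j hj hij => hd i hi j hj hij) hA
  have h2 : ∑ i ∈ I, ENNReal.ofReal κ ≤ ∑ i ∈ I, μ (A i) := Finset.sum_le_sum hlow
  rw [← h1, Finset.sum_const, nsmul_eq_mul] at h2
  have h3 : μ (⋃ i ∈ I, A i) ≤ μ T := measure_mono (iUnion₂_subset hAT)
  have h4 := h2.trans (h3.trans hT)
  rw [← ENNReal.ofReal_natCast, ← ENNReal.ofReal_mul (Nat.cast_nonneg _),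
    ENNReal.ofReal_le_ofReal_iff hB] at h4
  linarith

/-- `J` is an interval which contains the critical point `0` and which the `p`-th iterate of
`x ↦ x ^ 2 + c` maps into itself, and the intervals `J, f J, …, f^(p-1) J` have disjoint interiors. -/
def Restrictive (c : ℝ) (p : ℕ) (J : Set ℝ) : Prop :=
  (∃ a b : ℝ, J = Icc a b) ∧ (0 : ℝ) ∈ J ∧ MapsTo ((fun x : ℝ => x ^ 2 + c)^[p]) J J ∧
    ∀ i < p, ∀ j < p, i ≠ j →
      Disjoint (interior ((fun x : ℝ => x ^ 2 + c)^[i] '' J))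
        (interior ((fun x : ℝ => x ^ 2 + c)^[j] '' J))

theorem iter_ofReal (c : ℝ) (n : ℕ) (x : ℝ) :
    (fun z : ℂ => z ^ 2 + (c : ℂ))^[n] (x : ℂ) = (((fun x : ℝ => x ^ 2 + c)^[n] x : ℝ) : ℂ) := by
  induction n with
  | zero => rfl
  | succ n ih =>
    rw [Function.iterate_succ_apply', Function.iterate_succ_apply', ih]
    push_cast
    ring

theorem P_eq_iter (c : ℂ) (n : ℕ) : P 2 n c = (fun z : ℂ => z ^ 2 + c)^[n] 0 := rfl

/-- a set with a periodic bounded piece through `0` -/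
theorem mem_of_bounded {c : ℂ} {p : ℕ} (hp : 1 ≤ p) {K : Set ℂ} (hK : Bornology.IsBounded K)
    (h0 : (0 : ℂ) ∈ K) (hm : MapsTo ((fun z : ℂ => z ^ 2 + c)^[p]) K K) : c ∈ multibrotSet 2 := by
  intro ht
  have h1 : Tendsto (fun n : ℕ => (n + 1) * p) atTop atTop := by
    refine tendsto_atTop_mono (fun n => ?_) (tendsto_id (α := ℕ))
    show n ≤ (n + 1) * p
    nlinarith
  have h2 := ht.comp h1
  have h3 : ∀ᶠ z in Bornology.cobounded ℂ, z ∉ K := hK
  obtain ⟨n, hn⟩ := (h2.eventually h3).exists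
  apply hn
  show (fun z : ℂ => z ^ 2 + c)^[(n + 1) * p] 0 ∈ K
  have h4 : ∀ k : ℕ, (fun z : ℂ => z ^ 2 + c)^[k * p] 0 ∈ K := by
    intro k
    induction k with
    | zero => simpa using h0
    | succ k ih =>
      rw [Nat.succ_mul, Nat.add_comm, Function.iterate_add_apply]
      exact hm ih
  exact h4 (n + 1)

/-- **Real infinitely renormalizable parameters.** -/
theorem sub_of_real {c : ℝ} (h : {p : ℕ | ∃ J, Restrictive c p J}.Infinite) :
    Sub (c : ℂ) := by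
  have hmaps : ∀ (p : ℕ) (J : Set ℝ), Restrictive c p J →
      MapsTo ((fun z : ℂ => z ^ 2 + (c : ℂ))^[p]) (Complex.ofReal '' J) (Complex.ofReal '' J) := by
    rintro p J ⟨-, -, hm, -⟩ _ ⟨x, hx, rfl⟩
    rw [iter_ofReal]
    exact ⟨_, hm hx, rfl⟩
  have hcomp : ∀ (p : ℕ) (J : Set ℝ), Restrictive c p J → IsCompact J := by
    rintro p J ⟨⟨a, b, rfl⟩, -⟩
    exact isCompact_Icc
  have hcM : (c : ℂ) ∈ multibrotSet 2 := by
    obtain ⟨p, ⟨J, hJ⟩, hp⟩ := h.exists_gt 0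
    exact mem_of_bounded (K := Complex.ofReal '' J) hp
      ((hcomp p J hJ).image Complex.continuous_ofReal).isBounded ⟨0, hJ.2.1, by simp⟩
      (hmaps p J hJ)
  have hc2 : ‖(c : ℂ)‖ ≤ 2 := by
    have := (Pool.Agent.H712R2.mem_multibrot_iff le_rfl (c : ℂ)).1 hcM 1
    have e : P 2 1 (c : ℂ) = c := by
      rw [P_eq_iter]
      simp
    rw [e] at this
    norm_num at this ⊢
    exact this
  apply sub_of_small hcM (η := 1 / 2) (by norm_num)
  intro r hr
  obtain ⟨k, hk⟩ := exists_nat_gt (8 / r)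
  obtain ⟨p, ⟨J, hJ⟩, hpk⟩ := h.exists_gt k
  have hp : 1 ≤ p := by omega
  have hpR : 8 / r < p := hk.trans (by exact_mod_cast hpk)
  refine ⟨p, Complex.ofReal '' J, hp, ?_, ⟨0, hJ.2.1, by simp⟩, hmaps p J hJ, ?_⟩
  · obtain ⟨⟨a, b, rfl⟩, -⟩ := hJ
    exact isPreconnected_Icc.image _ Complex.continuous_ofReal.continuousOn
  classical
  -- the pieces are in `[-2, 2]`
  have hbd : ∀ x ∈ J, ∀ i : ℕ, (fun x : ℝ => x ^ 2 + c)^[i] x ∈ Icc (-2 : ℝ) 2 := by
    intro x hx i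
    obtain ⟨R, hR⟩ := (hcomp p J hJ).isBounded.exists_norm_le
    have h1 : ∀ k : ℕ, (fun x : ℝ => x ^ 2 + c)^[k * p] x ∈ J := by
      intro k
      induction k with
      | zero => simpa using hx
      | succ k ih =>
        rw [Nat.succ_mul, Nat.add_comm, Function.iterate_add_apply]
        exact hJ.2.2.1 ih
    have h2 : ‖(((fun x : ℝ => x ^ 2 + c)^[i] x : ℝ) : ℂ)‖ ≤ 2 := by
      apply norm_le_two hc2 (R := R)
      rw [frequently_atTop]
      intro n
      refine ⟨(n + i + 1) * p - i, ?_, ?_⟩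
      · have : (n + i + 1) * 1 ≤ (n + i + 1) * p := Nat.mul_le_mul_left _ hp
        omega
      · rw [iter_ofReal, ← Function.iterate_add_apply]
        have e1 : (n + i + 1) * p - i + i = (n + i + 1) * p := by
          have : (n + i + 1) * 1 ≤ (n + i + 1) * p := Nat.mul_le_mul_left _ hp
          omega
        rw [e1, Complex.norm_real]
        exact hR _ (h1 _)
    rw [Complex.norm_real, Real.norm_eq_abs, abs_le] at h2
    exact ⟨h2.1, h2.2⟩
  have himg : ∀ i : ℕ, ∃ a b : ℝ, a ≤ b ∧ (fun x : ℝ => x ^ 2 + c)^[i] '' J = Icc a b := by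
    intro i
    have hcont : Continuous ((fun x : ℝ => x ^ 2 + c)^[i]) :=
      Continuous.iterate (by fun_prop) _
    obtain ⟨⟨a, b, hab⟩, h0J, -⟩ := hJ
    have h1 : ((fun x : ℝ => x ^ 2 + c)^[i] '' J).Nonempty := ⟨_, 0, h0J, rfl⟩
    have h2 : IsCompact ((fun x : ℝ => x ^ 2 + c)^[i] '' J) := by
      rw [hab]
      exact isCompact_Icc.image hcont
    have h3 : IsPreconnected ((fun x : ℝ => x ^ 2 + c)^[i] '' J) := by
      rw [hab]
      exact isPreconnected_Icc.image _ hcont.continuousOn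
    refine ⟨sInf ((fun x : ℝ => x ^ 2 + c)^[i] '' J), sSup ((fun x : ℝ => x ^ 2 + c)^[i] '' J), ?_,
      eq_Icc_of_connected_compact ⟨h1, h3⟩ h2⟩
    exact csInf_le_csSup h1 h2.bddBelow h2.bddAbove
  -- the large pieces
  obtain ⟨I, hI⟩ : ∃ I : Finset ℕ, I = (Finset.range p).filter (fun i =>
    ¬ ∀ z ∈ Complex.ofReal '' J, ∀ w ∈ Complex.ofReal '' J,
    dist ((fun z : ℂ => z ^ 2 + (c : ℂ))^[i] z) ((fun z : ℂ => z ^ 2 + (c : ℂ))^[i] w) < r) := ⟨_, rfl⟩
  have hIc : r * I.card ≤ 4 := by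
    have hT : (volume : Measure ℝ) (Icc (-2) 2) ≤ ENNReal.ofReal 4 := by
      rw [Real.volume_Icc]
      norm_num
    refine card_large_le (volume : Measure ℝ) (T := Icc (-2) 2)
      (A := fun i => interior ((fun x : ℝ => x ^ 2 + c)^[i] '' J)) hr (by norm_num) hT
      (fun i _ => isOpen_interior.measurableSet) ?_ ?_ ?_
    · intro i _
      refine interior_subset.trans ?_
      rintro _ ⟨x, hx, rfl⟩
      exact hbd x hx i
    · intro i hi j hj hij
      rw [hI] at hi hj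
      exact hJ.2.2.2 i (Finset.mem_range.1 (Finset.mem_filter.1 hi).1) j
        (Finset.mem_range.1 (Finset.mem_filter.1 hj).1) hij
    · intro i hi
      rw [hI] at hi
      have h1 := (Finset.mem_filter.1 hi).2
      push Not at h1
      obtain ⟨_, ⟨x, hx, rfl⟩, _, ⟨y, hy, rfl⟩, hxy⟩ := h1
      rw [iter_ofReal, iter_ofReal, Complex.dist_eq, ← Complex.ofReal_sub, Complex.norm_real,
        Real.norm_eq_abs] at hxy
      obtain ⟨a, b, hab, he⟩ := himg i
      show _ ≤ volume (interior ((fun x : ℝ => x ^ 2 + c)^[i] '' J))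
      rw [he, interior_Icc, Real.volume_Ioo]
      apply ENNReal.ofReal_le_ofReal
      have h2 : (fun x : ℝ => x ^ 2 + c)^[i] x ∈ Icc a b := by rw [← he]; exact ⟨x, hx, rfl⟩
      have h3 : (fun x : ℝ => x ^ 2 + c)^[i] y ∈ Icc a b := by rw [← he]; exact ⟨y, hy, rfl⟩
      refine hxy.trans ?_
      rw [abs_le]
      constructor <;> linarith [h2.1, h2.2, h3.1, h3.2]
  have hsum : cnt (c : ℂ) r p (Complex.ofReal '' J) + I.card = p := by
    have h1 := Finset.card_filter_add_card_filter_not (s := Finset.range p)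
      (fun i => ∀ z ∈ Complex.ofReal '' J, ∀ w ∈ Complex.ofReal '' J,
    dist ((fun z : ℂ => z ^ 2 + (c : ℂ))^[i] z) ((fun z : ℂ => z ^ 2 + (c : ℂ))^[i] w) < r)
    rw [Finset.card_range] at h1
    rw [hI]
    unfold cnt
    convert h1
  have hsumR : (cnt (c : ℂ) r p (Complex.ofReal '' J) : ℝ) + I.card = p := by exact_mod_cast hsum
  have h5 : (I.card : ℝ) ≤ 4 / r := by
    rw [le_div_iff₀ hr]
    linarith
  have h6 : (4 : ℝ) / r = 8 / r / 2 := by ring
  rw [h6] at h5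
  linarith

end Pool.Agent.H47.SP
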