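import Pool.Agent.H47.SP.Key

set_option autoImplicit false

/-!
# Few sets of a cycle are small
-/

open Set Metric Real N62a1eb23

namespace Pool.Agent.H47.SP

open Pool.Agent.H712R2 (P P_succ P_zero)
open Pool.Agent.Y736.HL (LL LL_nonneg LL_self LL_succ LL_mul LL_le)

open Classical in
/-- the number of small sets of the cycle -/
noncomputable def smallCount (r : ℝ) (p : ℕ) (E : ℕ → Set ℂ) : ℕ :=
  ((Finset.range p).filter (fun i => Small r (E i))).card

/-- residues of shifted integers -/
theorem card_fiber (m N p i : ℕ) (hp : 1 ≤ p) :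
    ((Finset.Icc 1 N).filter (fun t => (m + t) % p = i)).card ≤ N / p + 2 := by
  have h1 : ((Finset.Icc 1 N).filter (fun t => (m + t) % p = i)).card ≤
      (Finset.Icc (m / p) (m / p + N / p + 1)).card := by
    apply Finset.card_le_card_of_injOn (fun t => (m + t) / p)
    · intro t ht
      simp only [Finset.coe_filter, Finset.mem_Icc, mem_ofPred_eq] at ht
      simp only [Finset.coe_Icc, mem_Icc]
      refine ⟨Nat.div_le_div_right (by omega), ?_⟩
      have h2 : (m + t) / p ≤ (m + N) / p := Nat.div_le_div_right (by omega)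
      have h3 : (m + N) / p < m / p + N / p + 2 := by
        rw [Nat.div_lt_iff_lt_mul (by omega)]
        have h4 := Nat.mod_add_div m p
        have h5 := Nat.mod_add_div N p
        have h6 := Nat.mod_lt m (show 0 < p by omega)
        have h7 := Nat.mod_lt N (show 0 < p by omega)
        have h8 : (m / p + N / p + 2) * p = p * (m / p) + p * (N / p) + 2 * p := by ring
        omega
      omega
    · intro t ht u hu htu
      simp only [Finset.coe_filter, Finset.mem_Icc, mem_ofPred_eq] at ht hu
      have htu' : (m + t) / p = (m + u) / p := htu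
      have h4 := Nat.mod_add_div (m + t) p
      have h5 := Nat.mod_add_div (m + u) p
      rw [ht.2, htu'] at h4
      rw [hu.2] at h5
      omega
  refine h1.trans ?_
  rw [Nat.card_Icc]
  generalize m / p = x
  generalize N / p = y
  omega

/-- **Few sets of a cycle are small.** -/
theorem few_small {c : ℂ} (hc : c ∈ multibrotSet 2) (h : ¬ Sub c) {η : ℝ} (hη : 0 < η) :
    ∃ r : ℝ, 0 < r ∧ ∀ (p : ℕ) (E : ℕ → Set ℂ), 1 ≤ p → Cyc c p E →
      (smallCount r p E : ℝ) ≤ η * p := by
  classical
  rcases le_or_gt 1 η with hη1 | hη1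
  · refine ⟨1, one_pos, fun p E hp _ => ?_⟩
    have h1 : smallCount 1 p E ≤ p := by
      unfold smallCount
      refine (Finset.card_filter_le _ _).trans ?_
      rw [Finset.card_range]
    have h2 : (smallCount 1 p E : ℝ) ≤ p := by exact_mod_cast h1
    have h3 : (0 : ℝ) ≤ p := Nat.cast_nonneg p
    nlinarith
  obtain ⟨χ, hχ, hw⟩ := windows hc h
  obtain ⟨ε, hε⟩ : ∃ ε : ℝ, ε = η * χ / 16 := ⟨_, rfl⟩
  have hε0 : 0 < ε := by rw [hε]; positivity
  have hεχ : ε < χ / 16 := by
    rw [hε]
    have := mul_lt_mul_of_pos_right hη1 hχ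
    linarith
  obtain ⟨A, hA, hup, hwin⟩ := hw ε hε0 (by linarith)
  obtain ⟨a, ha⟩ : ∃ a : ℝ, a = 3 * χ / 4 := ⟨_, rfl⟩
  obtain ⟨b, hb⟩ : ∃ b : ℝ, b = χ + ε := ⟨_, rfl⟩
  have hab : b < 2 * a := by rw [ha, hb]; linarith
  rw [← hb] at hup
  refine ⟨(1 - exp (b - 2 * a)) * exp (-(3 * A)) / 16, ?_, ?_⟩
  · have h1 : exp (b - 2 * a) < 1 := Real.exp_lt_one_iff.2 (by linarith)
    have h2 := Real.exp_pos (-(3 * A))
    have h3 : 0 < 1 - exp (b - 2 * a) := by linarith
    positivity
  intro p E hp hE
  obtain ⟨r, hr⟩ : ∃ r : ℝ, r = (1 - exp (b - 2 * a)) * exp (-(3 * A)) / 16 := ⟨_, rfl⟩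
  rw [← hr]
  by_contra hcon
  push Not at hcon
  obtain ⟨N₀, hN₀⟩ := exists_nat_gt (2 / η * (3 * p + A / (χ / 4)))
  obtain ⟨m, N, hN, hL⟩ := hwin N₀
  have hNR : 2 / η * (3 * p + A / (χ / 4)) < N := lt_of_lt_of_le hN₀ (by exact_mod_cast hN)
  -- positivity along the window
  have hposN : 0 < LL c m (m + N) := lt_trans (Real.exp_pos _) hL
  have hpos : ∀ t ≤ N, 0 < LL c m (m + t) := by
    intro t ht
    have h1 := LL_mul c (m := m) (k := m + t) (n := m + N) (by omega) (by omega)
    rcases (LL_nonneg c m (m + t)).eq_or_lt with h2 | h2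
    · rw [← h2, zero_mul] at h1
      rw [← h1] at hposN
      exact absurd hposN (lt_irrefl _)
    · exact h2
  obtain ⟨S, hS⟩ : ∃ S : ℕ → ℝ, S = fun t => Real.log (LL c m (m + t)) := ⟨_, rfl⟩
  have hSdiff : ∀ j t, j ≤ t → t ≤ N → 0 < LL c (m + j) (m + t) ∧
      S t - S j = Real.log (LL c (m + j) (m + t)) := by
    intro j t hjt htN
    have h1 := LL_mul c (m := m) (k := m + j) (n := m + t) (by omega) (by omega)
    have h2 := hpos j (by omega)
    have h3 := hpos t htN
    have h4 : 0 < LL c (m + j) (m + t) := by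
      rcases (LL_nonneg c (m + j) (m + t)).eq_or_lt with h5 | h5
      · rw [← h5, mul_zero] at h1
        rw [← h1] at h3
        exact absurd h3 (lt_irrefl _)
      · exact h5
    refine ⟨h4, ?_⟩
    rw [hS]
    show Real.log (LL c m (m + t)) - Real.log (LL c m (m + j)) = _
    rw [← h1, Real.log_mul h2.ne' h4.ne']
    ring
  have hinc : ∀ j t, j ≤ t → t ≤ N → S t - S j ≤ A + b * ((t : ℝ) - j) := by
    intro j t hjt htN
    obtain ⟨h1, h2⟩ := hSdiff j t hjt htN
    rw [h2]
    have h3 := hup (m + j) (m + t) (by omega)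
    have h4 := Real.log_le_log h1 h3
    rw [Real.log_exp] at h4
    push_cast at h4
    have e1 : (m : ℝ) + t - (m + j) = t - j := by ring
    rw [e1] at h4
    exact h4
  have hnb := nb_bound (S := S) (A := A) (a := a) (b := b) (N := N) hA (by rw [ha, hb]; linarith)
    hinc N le_rfl
  have hS0 : S 0 = 0 := by
    rw [hS]
    show Real.log (LL c m (m + 0)) = 0
    rw [add_zero, LL_self, Real.log_one]
  have hSN : (χ - ε) * N < S N := by
    rw [hS]
    show _ < Real.log (LL c m (m + N))
    rw [Real.lt_log_iff_exp_lt hposN]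
    exact hL
  have hNpos : (0 : ℝ) ≤ N := Nat.cast_nonneg N
  have hnb' : (nb S A a N : ℝ) * (χ / 4) ≤ A + 2 * ε * N := by
    have h1 : (nb S A a N : ℝ) * (χ / 4) ≤ (b - a) * nb S A a N := by
      rw [mul_comm]
      apply mul_le_mul_of_nonneg_right _ (Nat.cast_nonneg _)
      rw [ha, hb]
      linarith
    rw [hS0] at hnb
    have h2 : b * (N : ℝ) = χ * N + ε * N := by rw [hb]; ring
    have h3 : (χ - ε) * (N : ℝ) = χ * N - ε * N := by ring
    linarith
  have hnb2 : (nb S A a N : ℝ) ≤ A / (χ / 4) + η / 2 * N := by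
    have h1 : A / (χ / 4) + η / 2 * N = (A + 2 * ε * N) / (χ / 4) := by
      rw [hε]
      field_simp
      ring
    rw [h1, le_div_iff₀ (by positivity)]
    exact hnb'
  -- good times
  have hgood : ∀ t ∈ (Finset.Icc 1 N).filter (fun t => ¬ Bad S A a t ∧ p ≤ t),
      (m + t) % p ∈ (Finset.range p).filter (fun i => ¬ Small r (E i)) := by
    intro t ht
    simp only [Finset.mem_filter, Finset.mem_Icc] at ht
    obtain ⟨⟨ht1, htN⟩, hbad, hpt⟩ := ht
    simp only [Finset.mem_filter, Finset.mem_range]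
    refine ⟨Nat.mod_lt _ (by omega), ?_⟩
    rw [← hE.per_mod (m + t), hr]
    apply large hA hE hp hpt (by rw [ha]; linarith) hab hup
    intro n hn
    unfold Bad at hbad
    push Not at hbad
    rcases Nat.eq_zero_or_pos n with rfl | hn0
    · rw [Nat.sub_zero, LL_self]
      simp only [Nat.cast_zero, mul_zero, zero_sub]
      exact Real.exp_le_one_iff.2 (by linarith)
    · have h1 := hbad (t - n) (by omega)
      obtain ⟨h2, h3⟩ := hSdiff (t - n) t (by omega) htN
      rw [h3, Nat.cast_sub hn] at h1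
      have e1 : (t : ℝ) - (t - n) = n := by ring
      rw [e1] at h1
      have e2 : m + t - n = m + (t - n) := by omega
      rw [e2]
      exact (Real.le_log_iff_exp_le h2).1 h1
  have hcard := Finset.card_le_mul_card_image_of_maps_to hgood (N / p + 2) (by
    intro i _
    refine (Finset.card_le_card ?_).trans (card_fiber m N p i hp)
    intro t ht
    simp only [Finset.mem_filter, Finset.mem_Icc] at ht ⊢
    exact ⟨ht.1.1, ht.2⟩)
  -- the number of good times
  have hG : N ≤ ((Finset.Icc 1 N).filter (fun t => ¬ Bad S A a t ∧ p ≤ t)).card +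
      nb S A a N + p := by
    have h1 : (Finset.Icc 1 N) ⊆ ((Finset.Icc 1 N).filter (fun t => ¬ Bad S A a t ∧ p ≤ t)) ∪
        ((Finset.Icc 1 N).filter (fun t => Bad S A a t)) ∪ Finset.range p := by
      intro t ht
      simp only [Finset.mem_union, Finset.mem_filter, Finset.mem_range]
      by_cases h2 : t < p
      · exact Or.inr h2
      · by_cases h3 : Bad S A a t
        · exact Or.inl (Or.inr ⟨ht, h3⟩)
        · exact Or.inl (Or.inl ⟨ht, h3, by omega⟩)
    have h2 := Finset.card_le_card h1
    have h3 := Finset.card_union_le (((Finset.Icc 1 N).filter (fun t => ¬ Bad S A a t ∧ p ≤ t)) ∪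
        ((Finset.Icc 1 N).filter (fun t => Bad S A a t))) (Finset.range p)
    have h4 := Finset.card_union_le ((Finset.Icc 1 N).filter (fun t => ¬ Bad S A a t ∧ p ≤ t))
        ((Finset.Icc 1 N).filter (fun t => Bad S A a t))
    have h5 : nb S A a N = ((Finset.Icc 1 N).filter (fun t => Bad S A a t)).card := rfl
    rw [Nat.card_Icc] at h2
    rw [Finset.card_range] at h3
    omega
  -- the number of large sets
  have hlarge : ((Finset.range p).filter (fun i => ¬ Small r (E i))).card + smallCount r p E = p := by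
    have h1 := Finset.card_filter_add_card_filter_not (s := Finset.range p)
      (fun i => Small r (E i))
    rw [Finset.card_range] at h1
    unfold smallCount
    omega
  have hlargeR : (((Finset.range p).filter (fun i => ¬ Small r (E i))).card : ℝ) +
      smallCount r p E = p := by exact_mod_cast hlarge
  have hpR : (1 : ℝ) ≤ p := by exact_mod_cast hp
  have hGR : (N : ℝ) ≤ (((Finset.Icc 1 N).filter (fun t => ¬ Bad S A a t ∧ p ≤ t)).card : ℝ) +
      nb S A a N + p := by exact_mod_cast hG
  have hcardR : (((Finset.Icc 1 N).filter (fun t => ¬ Bad S A a t ∧ p ≤ t)).card : ℝ) ≤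
      ((N / p : ℕ) + 2) * ((Finset.range p).filter (fun i => ¬ Small r (E i))).card := by
    exact_mod_cast hcard
  have hdiv : ((N / p : ℕ) : ℝ) ≤ N / p := Nat.cast_div_le
  have h1 : (((Finset.range p).filter (fun i => ¬ Small r (E i))).card : ℝ) ≤ p * (1 - η) := by
    nlinarith
  have h2 : (((N / p : ℕ) : ℝ) + 2) * ((Finset.range p).filter (fun i => ¬ Small r (E i))).card ≤
      (N / p + 2) * (p * (1 - η)) := by
    apply mul_le_mul (by linarith) h1 (Nat.cast_nonneg _) (by positivity)
  have h3 : ((N : ℝ) / p + 2) * (p * (1 - η)) = (N + 2 * p) * (1 - η) := by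
    field_simp
  have h4 : (N : ℝ) * (η / 2) ≤ 3 * p + A / (χ / 4) := by
    nlinarith
  rw [div_mul_eq_mul_div, div_lt_iff₀ hη] at hNR
  nlinarith

end Pool.Agent.H47.SP
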