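import Pool.Agent.H47.SP.Few
import Pool.Agent.Y736.RN.I
import Pool.Agent.Y736.RN.M

set_option autoImplicit false

/-!
# Subexponential growth along the critical orbit and flatness
-/

open Complex Filter Topology Set Metric MeasureTheory N62a1eb23

namespace Pool.Agent.H47.SP

open Pool.Agent.H713R2
open Pool.Agent.H712R2 (P P_succ P_one P_zero fc continuous_P)
open Pool.Agent.Y736.HD (Ang vol_Ang_ne ev_lt ev_pos GS)
open Pool.Agent.Y736.HL (LL LL_nonneg LL_self LL_mul LL_le norm_deriv_iter)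
open Pool.Agent.Y736 Pool.Agent.Y736.RN

/-- **Subexponential growth implies flatness.** -/
theorem not_big_of_sub {ψ : ℂ → ℂ} (hψ : IsExteriorMap (multibrotSet 2) ψ) {c : ℂ}
    (hc : c ∈ multibrotSet 2) (h : Sub c) :
    ∀ κ : ℝ, 0 < κ → ¬ Big ψ κ c := by
  intro κ hκ hB
  have hlog2 : 0 < Real.log 2 := Real.log_pos (by norm_num)
  obtain ⟨L, hL⟩ : ∃ L : ℝ, L = Real.exp (Real.log 2 / (κ + 2)) := ⟨_, rfl⟩
  have hL1 : 1 < L := by
    rw [hL]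
    exact Real.one_lt_exp_iff.2 (by positivity)
  obtain ⟨C₁, hC₁, hD⟩ := h L hL1
  obtain ⟨K, hK, hup⟩ := Pool.Agent.Y736.HL.upper_pow hc hL1 hC₁ hD
  have hlogL : Real.log L = Real.log 2 / (κ + 2) := by
    rw [hL, Real.log_exp]
  obtain ⟨s, hs⟩ : ∃ s, s = Real.log 2 / Real.log L := ⟨_, rfl⟩
  have hsκ : κ + 1 < s := by
    rw [hs, hlogL, div_div_eq_mul_div, mul_div_assoc, mul_comm, div_mul_cancel₀ _ hlog2.ne']
    linarith
  rw [← hs] at hup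
  obtain ⟨η, hη, hf⟩ := hB
  obtain ⟨δ, hδ, hgc⟩ := HG.green_cont (d := 2) le_rfl hc hlog2
  have hsmall : ∀ᶠ r : ℝ in 𝓝[>] 0, K * r < η := by
    have h1 : Tendsto (fun r : ℝ => K * r) (𝓝[>] 0) (𝓝 (K * 0)) :=
      ((by fun_prop : Continuous fun r : ℝ => K * r).tendsto 0).mono_left nhdsWithin_le_nhds
    rw [mul_zero] at h1
    exact h1.eventually (gt_mem_nhds hη)
  obtain ⟨ρ, ⟨w, hw, hwρ, hwη⟩, hρ0, hρ1, hρ2, hρ3⟩ := (hf.and_eventually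
    (ev_pos.and ((ev_lt one_pos).and ((ev_lt hδ).and hsmall)))).exists
  have hw0 : 0 < ‖w‖ := by linarith
  have hw2 : ‖w‖ ≤ 2 := by
    have h1 := hgc ψ hψ w hw (hwρ.trans hρ2.le)
    exact (Real.log_le_log_iff hw0 (by norm_num)).1 h1
  have h1 := hup ψ hψ w hw hw2
  have h2 : Real.log ‖w‖ ≤ ‖w‖ - 1 := Real.log_le_sub_one_of_pos hw0
  have h3 : ‖ψ w - c‖ ^ s ≤ ρ ^ s := Real.rpow_le_rpow (norm_nonneg _) hwρ (by linarith)
  have h4 : ρ ^ s ≤ ρ ^ (κ + 1) := Real.rpow_le_rpow_of_exponent_ge hρ0 hρ1.le hsκ.le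
  rw [Real.rpow_add hρ0, Real.rpow_one] at h4
  have h5 : 0 < ρ ^ κ := Real.rpow_pos_of_pos hρ0 _
  have h6 : η * ρ ^ κ ≤ K * (ρ ^ κ * ρ) := by
    calc η * ρ ^ κ ≤ Real.log ‖w‖ := hwη
      _ ≤ ‖w‖ - 1 := h2
      _ ≤ K * ‖ψ w - c‖ ^ s := h1
      _ ≤ K * (ρ ^ κ * ρ) := by
        apply mul_le_mul_of_nonneg_left (h3.trans h4) hK.le
  have h7 : K * (ρ ^ κ * ρ) < η * ρ ^ κ := by
    calc K * (ρ ^ κ * ρ) = K * ρ * ρ ^ κ := by ring
      _ < η * ρ ^ κ := by gcongr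
  linarith

end Pool.Agent.H47.SP
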