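import Mathlib

set_option autoImplicit false

/-!
# Times of almost maximal growth

`S` is a real sequence whose increments over every interval `(j, t]` are at most `A + b (t - j)`. A time
`t` is *bad* if the increment over some interval `(j, t]` is less than `a (t - j) - A`, where `a < b`.
If `S N - S 0` is almost `b N` then there are few bad times up to `N`.
-/

namespace Pool.Agent.H47.SP

/-- the bad times -/
def Bad (S : ℕ → ℝ) (A a : ℝ) (t : ℕ) : Prop := ∃ j < t, S t - S j < a * ((t : ℝ) - j) - A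

open Classical in
/-- number of bad times in `[1, u]` -/
noncomputable def nb (S : ℕ → ℝ) (A a : ℝ) (u : ℕ) : ℕ :=
  ((Finset.Icc 1 u).filter (fun t => Bad S A a t)).card

open Classical in
theorem nb_zero (S : ℕ → ℝ) (A a : ℝ) : nb S A a 0 = 0 := by
  unfold nb
  simp

open Classical in
theorem nb_succ (S : ℕ → ℝ) (A a : ℝ) (u : ℕ) :
    nb S A a (u + 1) = nb S A a u + if Bad S A a (u + 1) then 1 else 0 := by
  unfold nb
  have h1 : Finset.Icc 1 (u + 1) = insert (u + 1) (Finset.Icc 1 u) := by
    ext x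
    simp only [Finset.mem_Icc, Finset.mem_insert]
    omega
  rw [h1, Finset.filter_insert]
  split_ifs with h
  · rw [Finset.card_insert_of_notMem]
    intro h2
    have := (Finset.mem_Icc.1 (Finset.mem_filter.1 h2).1).2
    omega
  · rfl

theorem nb_le (S : ℕ → ℝ) (A a : ℝ) {j u : ℕ} (h : j ≤ u) : nb S A a u ≤ nb S A a j + (u - j) := by
  classical
  obtain ⟨k, rfl⟩ := Nat.exists_eq_add_of_le h
  have key : ∀ k : ℕ, nb S A a (j + k) ≤ nb S A a j + k := by
    intro k
    induction k with
    | zero => simp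
    | succ k ih =>
      rw [← add_assoc, nb_succ]
      split_ifs <;> omega
  have := key k
  omega

/-- **Few bad times.** -/
theorem nb_bound {S : ℕ → ℝ} {A a b : ℝ} {N : ℕ} (hA : 0 ≤ A) (hab : a ≤ b)
    (hup : ∀ j t, j ≤ t → t ≤ N → S t - S j ≤ A + b * ((t : ℝ) - j)) :
    ∀ u ≤ N, S u - S 0 ≤ A + b * u - (b - a) * nb S A a u := by
  classical
  -- `v` is the last bad time, or zero
  have key : ∀ u ≤ N, ∃ v ≤ u, nb S A a u = nb S A a v ∧
      S v - S 0 ≤ b * v - (b - a) * nb S A a v := by
    intro u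
    induction u using Nat.strong_induction_on with
    | _ u ih =>
      intro hu
      rcases Nat.eq_zero_or_pos u with rfl | hpos
      · exact ⟨0, le_rfl, rfl, by simp [nb_zero]⟩
      obtain ⟨k, rfl⟩ : ∃ k, u = k + 1 := ⟨u - 1, by omega⟩
      by_cases hb : Bad S A a (k + 1)
      · refine ⟨k + 1, le_rfl, rfl, ?_⟩
        obtain ⟨j, hj, hlt⟩ := hb
        obtain ⟨v, hv, hn, hS⟩ := ih j hj (by omega)
        have h1 := hup v j hv (by omega)
        have h2 : ((nb S A a (k + 1) : ℕ) : ℝ) ≤ nb S A a v + (((k + 1 : ℕ) : ℝ) - j) := by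
          have h3 := nb_le S A a hj.le
          rw [hn] at h3
          have h4 : ((nb S A a (k + 1) : ℕ) : ℝ) ≤ ((nb S A a v + (k + 1 - j) : ℕ) : ℝ) := by
            exact_mod_cast h3
          rw [Nat.cast_add, Nat.cast_sub hj.le] at h4
          exact h4
        have h3 : (b - a) * (nb S A a (k + 1) : ℝ) ≤
            (b - a) * (nb S A a v + (((k + 1 : ℕ) : ℝ) - j)) :=
          mul_le_mul_of_nonneg_left h2 (by linarith)
        nlinarith
      · obtain ⟨v, hv, hn, hS⟩ := ih k (by omega) (by omega)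
        refine ⟨v, by omega, ?_, hS⟩
        rw [nb_succ, if_neg hb, add_zero, hn]
  intro u hu
  obtain ⟨v, hv, hn, hS⟩ := key u hu
  have h1 := hup v u hv hu
  rw [hn]
  linarith

end Pool.Agent.H47.SP
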