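import Mathlib

set_option autoImplicit false

/-!
# Pulling back small connected sets along an expanding orbit of a quadratic polynomial
-/

open Set Metric

namespace Pool.Agent.H47.SP

/-- one step -/
theorem step {c x x' : ℂ} (hx : x' = x ^ 2 + c) {E E' : Set ℂ} (hE : IsPreconnected E) (hxE : x ∈ E)
    (hmap : ∀ z ∈ E, z ^ 2 + c ∈ E') {ρ β : ℝ} (hβ : β = 2 * ‖x‖) (hβ0 : 0 < β)
    (hρ : 8 * ρ ≤ β ^ 2) (hE' : E' ⊆ ball x' ρ) :
    E ⊆ ball x (ρ / β * (1 + 4 * ρ / β ^ 2)) ∧ (0 : ℂ) ∉ E := by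
  have hρ0 : 0 < ρ := by
    have h1 := hE' (hmap x hxE)
    exact pos_of_mem_ball h1
  obtain ⟨s, hs⟩ : ∃ s : ℝ, s = 2 * ρ / β ^ 2 := ⟨_, rfl⟩
  have hs0 : 0 < s := by rw [hs]; positivity
  have hs1 : s ≤ 1 / 4 := by
    rw [hs, div_le_iff₀ (by positivity)]
    linarith
  have hρs : ρ = s * β ^ 2 / 2 := by
    rw [hs]
    field_simp
  obtain ⟨τ, hτ⟩ : ∃ τ : ℝ, τ = ρ / β * (1 + 4 * ρ / β ^ 2) := ⟨_, rfl⟩
  have hτ' : τ = s * β / 2 * (1 + 2 * s) := by
    rw [hτ, hρs]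
    field_simp
    ring
  have hτ1 : 4 * τ < β := by
    rw [hτ']
    nlinarith [mul_pos hs0 hβ0]
  have key : ∀ u v : ℂ, ‖u‖ * ‖v‖ < ρ → β ≤ ‖u‖ + ‖v‖ → ‖u‖ ≤ β / 2 → ‖u‖ < τ := by
    intro u v huv hsum hu
    have h1 : β / 2 ≤ ‖v‖ := by linarith
    have h2 : ‖u‖ * (β / 2) < ρ := by
      have := mul_le_mul_of_nonneg_left h1 (norm_nonneg u)
      linarith
    have h3 : ‖u‖ < s * β := by
      rw [hρs] at h2
      by_contra hcon
      push Not at hcon
      nlinarith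
    have h4 : β * (1 - s) ≤ ‖v‖ := by linarith
    have h5 : ‖u‖ * (β * (1 - s)) < ρ := by
      have := mul_le_mul_of_nonneg_left h4 (norm_nonneg u)
      linarith
    rw [hτ']
    by_contra hcon
    push Not at hcon
    have h6 : s * β / 2 * (1 + 2 * s) * (β * (1 - s)) ≤ ‖u‖ * (β * (1 - s)) := by
      apply mul_le_mul_of_nonneg_right hcon
      have : 0 < 1 - s := by linarith
      positivity
    have h7 : s * β / 2 * (1 + 2 * s) * (β * (1 - s)) = ρ * ((1 + 2 * s) * (1 - s)) := by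
      rw [hρs]
      ring
    have h8 : 1 ≤ (1 + 2 * s) * (1 - s) := by nlinarith
    have h9 : ρ * 1 ≤ ρ * ((1 + 2 * s) * (1 - s)) := mul_le_mul_of_nonneg_left h8 hρ0.le
    linarith
  have hcov : E ⊆ ball x τ ∪ ball (-x) τ := by
    intro z hz
    have h1 := hE' (hmap z hz)
    rw [mem_ball, dist_eq_norm, hx] at h1
    have h2 : z ^ 2 + c - (x ^ 2 + c) = (z - x) * (z + x) := by ring
    rw [h2, norm_mul] at h1
    have h3 : β ≤ ‖z - x‖ + ‖z + x‖ := by
      have h4 : ‖2 * x‖ = 2 * ‖x‖ := by rw [norm_mul]; norm_num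
      have h5 : (2 : ℂ) * x = (z + x) - (z - x) := by ring
      have h6 := norm_sub_le (z + x) (z - x)
      rw [← h5, h4] at h6
      linarith
    rcases le_or_gt ‖z - x‖ (β / 2) with h | h
    · left
      rw [mem_ball, dist_eq_norm]
      exact key _ _ h1 h3 h
    · right
      rw [mem_ball, dist_eq_norm, sub_neg_eq_add]
      have h4 : ‖z + x‖ ≤ β / 2 := by
        by_contra h5
        push Not at h5
        have : β / 2 * (β / 2) ≤ ‖z - x‖ * ‖z + x‖ :=
          mul_le_mul h.le h5.le (by positivity) (norm_nonneg _)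
        nlinarith
      exact key _ _ (by rwa [mul_comm]) (by linarith) h4
  have hτ0 : 0 < τ := by rw [hτ']; positivity
  have hdisj : Disjoint (ball x τ) (ball (-x) τ) := by
    apply ball_disjoint_ball
    have h1 : x - -x = 2 * x := by ring
    rw [dist_eq_norm, h1, norm_mul]
    norm_num
    linarith
  have hsub : E ⊆ ball x τ :=
    hE.subset_left_of_subset_union isOpen_ball isOpen_ball hdisj hcov
      ⟨x, hxE, mem_ball_self hτ0⟩
  refine ⟨by rw [← hτ]; exact hsub, fun h0 => ?_⟩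
  have h1 := hsub h0
  rw [mem_ball, dist_eq_norm, zero_sub, norm_neg] at h1
  linarith

/-- **Pulling back.** The products `lam n` of the derivatives along the last `n` steps of the orbit
`x 0, …, x t` grow. Connected sets along the orbit, the last of which is small, shrink backwards and
do not contain the critical point. -/
theorem shrink {c : ℂ} {x : ℕ → ℂ} {E : ℕ → Set ℂ} {t : ℕ} {lam : ℕ → ℝ} {q r : ℝ}
    (hx : ∀ j < t, x (j + 1) = x j ^ 2 + c) (hE : ∀ j ≤ t, IsPreconnected (E j))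
    (hmem : ∀ j ≤ t, x j ∈ E j) (hmap : ∀ j < t, ∀ z ∈ E j, z ^ 2 + c ∈ E (j + 1))
    (hlam0 : lam 0 = 1) (hlam : ∀ n < t, lam (n + 1) = 2 * ‖x (t - (n + 1))‖ * lam n)
    (hpos : ∀ n ≤ t, 0 < lam n) (hq0 : 0 < q) (hq1 : q < 1) (hr : 0 < r)
    (hq : ∀ n < t, 16 * r * lam n ≤ (1 - q) * q ^ n * lam (n + 1) ^ 2)
    (h0 : E t ⊆ ball (x t) r) :
    ∀ n ≤ t, E (t - n) ⊆ ball (x (t - n)) (r * (2 - q ^ n) / lam n) ∧
      (1 ≤ n → (0 : ℂ) ∉ E (t - n)) := by
  intro n
  induction n with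
  | zero =>
    intro _
    refine ⟨?_, fun h => by omega⟩
    rw [Nat.sub_zero, pow_zero, hlam0]
    norm_num
    exact h0
  | succ n ih =>
    intro hn
    obtain ⟨ih1, -⟩ := ih (by omega)
    have he : t - (n + 1) + 1 = t - n := by omega
    have hl0 := hpos n (by omega)
    have hl1 := hpos (n + 1) hn
    have hqn : 0 < q ^ n := pow_pos hq0 n
    have hqn1 : q ^ n ≤ 1 := pow_le_one₀ hq0.le hq1.le
    obtain ⟨β, hβ⟩ : ∃ β : ℝ, β = 2 * ‖x (t - (n + 1))‖ := ⟨_, rfl⟩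
    have hlb : lam (n + 1) = β * lam n := by rw [hβ]; exact hlam n (by omega)
    have hβ0 : 0 < β := by
      by_contra hcon
      push Not at hcon
      rw [hlb] at hl1
      have := mul_nonpos_of_nonpos_of_nonneg hcon hl0.le
      linarith
    have hq' := hq n (by omega)
    rw [hlb] at hq'
    -- `16 r ≤ (1 - q) q ^ n β ^ 2 lam n`
    have hq2 : 16 * r ≤ (1 - q) * q ^ n * β ^ 2 * lam n := by
      have h1 : (1 - q) * q ^ n * (β * lam n) ^ 2 = ((1 - q) * q ^ n * β ^ 2 * lam n) * lam n := by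
        ring
      rw [h1] at hq'
      exact le_of_mul_le_mul_right hq' hl0
    obtain ⟨ρ, hρ⟩ : ∃ ρ : ℝ, ρ = r * (2 - q ^ n) / lam n := ⟨_, rfl⟩
    have hρl : ρ * lam n = r * (2 - q ^ n) := by
      rw [hρ]
      field_simp
    have hρ0 : 0 < ρ := by
      rw [hρ]
      have : 0 < 2 - q ^ n := by linarith
      positivity
    have hρ2 : ρ * lam n ≤ 2 * r := by
      rw [hρl]
      nlinarith
    -- `8 ρ ≤ (1 - q) q ^ n β ^ 2`
    have h8 : 8 * ρ ≤ (1 - q) * q ^ n * β ^ 2 := by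
      have h1 : 8 * ρ * lam n ≤ (1 - q) * q ^ n * β ^ 2 * lam n := by linarith
      exact le_of_mul_le_mul_right h1 hl0
    have hle1 : (1 - q) * q ^ n ≤ 1 := by
      have : (1 - q) * q ^ n ≤ 1 * 1 := mul_le_mul (by linarith) hqn1 hqn.le (by norm_num)
      linarith
    have h8' : 8 * ρ ≤ β ^ 2 := by
      have := mul_le_mul_of_nonneg_right hle1 (sq_nonneg β)
      linarith
    rw [← hρ, ← he] at ih1
    have hst := step (c := c) (x := x (t - (n + 1))) (x' := x (t - (n + 1) + 1))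
      (hx _ (by omega)) (hE _ (by omega)) (hmem _ (by omega)) (hmap _ (by omega)) hβ hβ0 h8' ih1
    refine ⟨hst.1.trans (ball_subset_ball ?_), fun _ => hst.2⟩
    rw [le_div_iff₀ hl1, hlb]
    have e1 : ρ / β * (1 + 4 * ρ / β ^ 2) * (β * lam n) = ρ * lam n * (1 + 4 * ρ / β ^ 2) := by
      field_simp
    rw [e1, hρl]
    have h9 : 4 * ρ / β ^ 2 ≤ (1 - q) * q ^ n / 2 := by
      rw [div_le_iff₀ (by positivity)]
      linarith
    have h10 : 0 < 2 - q ^ n := by linarith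
    have h11 : (2 - q ^ n) * (1 + 4 * ρ / β ^ 2) ≤ 2 - q ^ (n + 1) := by
      have h12 : (2 - q ^ n) * (4 * ρ / β ^ 2) ≤ 2 * ((1 - q) * q ^ n / 2) :=
        mul_le_mul (by linarith) h9 (by positivity) (by norm_num)
      have h13 : q ^ (n + 1) = q ^ n * q := pow_succ _ _
      rw [h13]
      linarith
    calc r * (2 - q ^ n) * (1 + 4 * ρ / β ^ 2) = r * ((2 - q ^ n) * (1 + 4 * ρ / β ^ 2)) := by ring
      _ ≤ r * (2 - q ^ (n + 1)) := mul_le_mul_of_nonneg_left h11 hr.le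

end Pool.Agent.H47.SP
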