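import Pool.Agent.Y736.HL1
import Pool.Agent.H47.SP.Pliss
import Pool.Agent.H47.SP.Shrink

set_option autoImplicit false

/-!
# Growth along the critical orbit and cycles of connected sets

If the derivatives along the critical orbit do not grow subexponentially, uniformly in the starting
time, then in every cycle of connected sets which contains the critical orbit nearly all the sets are
large.
-/

open Set Metric Real N62a1eb23

namespace Pool.Agent.H47.SP

open Pool.Agent.H712R2 (P P_succ P_zero)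
open Pool.Agent.Y736.HL (LL LL_nonneg LL_self LL_succ LL_mul LL_le)

/-- uniform subexponential growth of the derivatives along the critical orbit -/
def Sub (c : ℂ) : Prop :=
  ∀ L : ℝ, 1 < L → ∃ C : ℝ, 0 < C ∧ ∀ m n : ℕ, m ≤ n → LL c m n ≤ C * L ^ (n - m)

/-- a cycle of connected sets through the critical point -/
structure Cyc (c : ℂ) (p : ℕ) (E : ℕ → Set ℂ) : Prop where
  conn : ∀ i, IsPreconnected (E i)
  zero : (0 : ℂ) ∈ E 0
  maps : ∀ i, ∀ z ∈ E i, z ^ 2 + c ∈ E (i + 1)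
  per : ∀ i, E (i + p) = E i

theorem Cyc.mem {c : ℂ} {p : ℕ} {E : ℕ → Set ℂ} (h : Cyc c p E) (i : ℕ) : P 2 i c ∈ E i := by
  induction i with
  | zero => rw [P_zero]; exact h.zero
  | succ i ih => rw [P_succ]; exact h.maps i _ ih

theorem Cyc.per_mul {c : ℂ} {p : ℕ} {E : ℕ → Set ℂ} (h : Cyc c p E) (i k : ℕ) :
    E (i + p * k) = E i := by
  induction k with
  | zero => simp
  | succ k ih => rw [Nat.mul_succ, ← add_assoc, h.per, ih]

theorem Cyc.per_mod {c : ℂ} {p : ℕ} {E : ℕ → Set ℂ} (h : Cyc c p E) (i : ℕ) :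
    E i = E (i % p) := by
  conv_lhs => rw [← Nat.mod_add_div i p]
  exact h.per_mul _ _

/-- **The maximal exponent.** -/
theorem windows {c : ℂ} (hc : c ∈ multibrotSet 2) (h : ¬ Sub c) : ∃ χ : ℝ, 0 < χ ∧
    ∀ ε : ℝ, 0 < ε → ε < χ → ∃ A : ℝ, 0 ≤ A ∧
      (∀ m n : ℕ, m ≤ n → LL c m n ≤ exp (A + (χ + ε) * ((n : ℝ) - m))) ∧
      ∀ N₀ : ℕ, ∃ m N : ℕ, N₀ ≤ N ∧ exp ((χ - ε) * N) < LL c m (m + N) := by
  unfold Sub at h
  push Not at h
  obtain ⟨L, hL, hf⟩ := h
  have hlog : 0 < Real.log L := Real.log_pos hL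
  obtain ⟨R, hR⟩ : ∃ R : Set ℝ, R = {b | ∃ C : ℝ, 0 < C ∧ ∀ m n : ℕ, m ≤ n →
    LL c m n ≤ C * exp (b * ((n : ℝ) - m))} := ⟨_, rfl⟩
  have hpow : ∀ (M : ℝ), 0 < M → ∀ m n : ℕ, m ≤ n →
      exp (Real.log M * ((n : ℝ) - m)) = M ^ (n - m) := by
    intro M hM m n hmn
    rw [← Nat.cast_sub hmn, Real.exp_mul, Real.exp_log hM, Real.rpow_natCast]
  have h4 : Real.log 4 ∈ R := by
    rw [hR]
    refine ⟨1, one_pos, fun m n hmn => ?_⟩
    rw [hpow 4 (by norm_num) m n hmn, one_mul]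
    exact LL_le c hc
  have hup : ∀ b ∈ R, ∀ b' : ℝ, b ≤ b' → b' ∈ R := by
    intro b hb b' hbb
    rw [hR] at hb ⊢
    obtain ⟨C, hC, hb⟩ := hb
    refine ⟨C, hC, fun m n hmn => (hb m n hmn).trans ?_⟩
    have : (m : ℝ) ≤ n := by exact_mod_cast hmn
    apply mul_le_mul_of_nonneg_left _ hC.le
    apply Real.exp_le_exp.2
    apply mul_le_mul_of_nonneg_right hbb
    linarith
  have hlow : ∀ b ∈ R, Real.log L ≤ b := by
    intro b hb
    by_contra hcon
    push Not at hcon
    have h1 := hup b hb _ hcon.le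
    rw [hR] at h1
    obtain ⟨C, hC, h1⟩ := h1
    obtain ⟨m, n, hmn, h2⟩ := hf C hC
    have h3 := h1 m n hmn
    rw [hpow L (by linarith) m n hmn] at h3
    linarith
  have hbdd : BddBelow R := ⟨Real.log L, fun b hb => hlow b hb⟩
  have hne : R.Nonempty := ⟨_, h4⟩
  refine ⟨sInf R, lt_of_lt_of_le hlog (le_csInf hne hlow), ?_⟩
  intro ε hε hεχ
  obtain ⟨b, hb, hbε⟩ := exists_lt_of_csInf_lt hne (show sInf R < sInf R + ε by linarith)
  have h5 := hup b hb _ hbε.le
  have h6 : sInf R - ε ∉ R := fun h7 => by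
    have := csInf_le hbdd h7
    linarith
  rw [hR] at h5
  obtain ⟨C, hC, h5⟩ := h5
  rw [← hR] at h5
  refine ⟨max (Real.log C) 0, le_max_right _ _, ?_, ?_⟩
  · intro m n hmn
    refine (h5 m n hmn).trans ?_
    rw [Real.exp_add]
    apply mul_le_mul_of_nonneg_right _ (Real.exp_pos _).le
    calc C = exp (Real.log C) := (Real.exp_log hC).symm
      _ ≤ _ := Real.exp_le_exp.2 (le_max_left _ _)
  · intro N₀
    rw [hR] at h6
    simp only [mem_ofPred_eq, not_exists, not_and] at h6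
    have h7 := h6 (4 ^ N₀) (by positivity)
    push Not at h7
    rw [← hR] at h7
    obtain ⟨m, n, hmn, h8⟩ := h7
    have hmnR : (m : ℝ) ≤ n := by exact_mod_cast hmn
    have h9 : (1 : ℝ) ≤ exp ((sInf R - ε) * ((n : ℝ) - m)) := by
      apply Real.one_le_exp
      apply mul_nonneg <;> linarith
    have h10 : (1 : ℝ) ≤ 4 ^ N₀ := one_le_pow₀ (by norm_num)
    refine ⟨m, n - m, ?_, ?_⟩
    · by_contra hcon
      push Not at hcon
      have h11 : (4 : ℝ) ^ (n - m) ≤ 4 ^ N₀ := pow_le_pow_right₀ (by norm_num) hcon.le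
      have h12 := LL_le c hc (m := m) (n := n)
      nlinarith
    · rw [Nat.add_sub_cancel' hmn, Nat.cast_sub hmn]
      nlinarith

/-- all points of the set have distances less than `r` -/
def Small (r : ℝ) (E : Set ℂ) : Prop := ∀ z ∈ E, ∀ w ∈ E, dist z w < r

/-- **Sets at good times are large.** -/
theorem large {c : ℂ} {m t p : ℕ} {A a b : ℝ} {E : ℕ → Set ℂ} (hA : 0 ≤ A) (hE : Cyc c p E)
    (hp : 1 ≤ p) (hpt : p ≤ t) (ha : 0 ≤ a) (hab : b < 2 * a)
    (hup : ∀ i j : ℕ, i ≤ j → LL c i j ≤ exp (A + b * ((j : ℝ) - i)))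
    (hlow : ∀ n ≤ t, exp (a * n - A) ≤ LL c (m + t - n) (m + t)) :
    ¬ Small ((1 - exp (b - 2 * a)) * exp (-(3 * A)) / 16) (E (m + t)) := by
  intro hsm
  obtain ⟨q, hq⟩ : ∃ q : ℝ, q = exp (b - 2 * a) := ⟨_, rfl⟩
  have hq0 : 0 < q := by rw [hq]; exact Real.exp_pos _
  have hq1 : q < 1 := by
    rw [hq]
    exact Real.exp_lt_one_iff.2 (by linarith)
  rw [← hq] at hsm
  obtain ⟨r, hr⟩ : ∃ r : ℝ, r = (1 - q) * exp (-(3 * A)) / 16 := ⟨_, rfl⟩
  rw [← hr] at hsm
  have hr0 : 0 < r := by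
    rw [hr]
    have := Real.exp_pos (-(3 * A))
    have h1 : 0 < 1 - q := by linarith
    positivity
  have hlampos : ∀ n ≤ t, 0 < LL c (m + t - n) (m + t) := fun n hn =>
    lt_of_lt_of_le (Real.exp_pos _) (hlow n hn)
  have key := shrink (c := c) (x := fun j => P 2 (m + j) c) (E := fun j => E (m + j)) (t := t)
    (lam := fun n => LL c (m + t - n) (m + t)) (q := q) (r := r)
    (fun j _ => by
      show P 2 (m + (j + 1)) c = _
      rw [← add_assoc, P_succ])
    (fun j _ => hE.conn _) (fun j _ => hE.mem _) (fun j _ z hz => by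
      show z ^ 2 + c ∈ E (m + (j + 1))
      rw [← add_assoc]
      exact hE.maps _ z hz)
    (by simp [LL_self])
    (fun n hn => by
      show LL c (m + t - (n + 1)) (m + t) = 2 * ‖P 2 (m + (t - (n + 1))) c‖ * LL c (m + t - n) (m + t)
      have e1 : m + t - n = m + t - (n + 1) + 1 := by omega
      have e2 : m + (t - (n + 1)) = m + t - (n + 1) := by omega
      rw [e2, e1, ← LL_mul c (m := m + t - (n + 1)) (k := m + t - (n + 1) + 1) (n := m + t)
        (by omega) (by omega), LL_succ c le_rfl, LL_self, one_mul, norm_mul]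
      norm_num)
    hlampos hq0 hq1 hr0
    (fun n hn => by
      show 16 * r * LL c (m + t - n) (m + t) ≤ (1 - q) * q ^ n * LL c (m + t - (n + 1)) (m + t) ^ 2
      have h1 := hup (m + t - n) (m + t) (by omega)
      have e1 : ((m + t : ℕ) : ℝ) - ((m + t - n : ℕ) : ℝ) = n := by
        rw [Nat.cast_sub (by omega : n ≤ m + t)]
        ring
      rw [e1] at h1
      have h2 := hlow (n + 1) (by omega)
      have h3 : exp (a * ((n + 1 : ℕ) : ℝ) - A) ^ 2 ≤ LL c (m + t - (n + 1)) (m + t) ^ 2 :=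
        pow_le_pow_left₀ (Real.exp_pos _).le h2 2
      have h4 : 0 < 1 - q := by linarith
      have h5 : 0 < q ^ n := pow_pos hq0 n
      calc 16 * r * LL c (m + t - n) (m + t) ≤ 16 * r * exp (A + b * n) := by gcongr
        _ = (1 - q) * exp (-(3 * A) + (A + b * n)) := by
          rw [Real.exp_add (-(3 * A)), hr]
          ring
        _ ≤ (1 - q) * exp ((b - 2 * a) * n + 2 * (a * ((n + 1 : ℕ) : ℝ) - A)) := by
          apply mul_le_mul_of_nonneg_left _ h4.le
          apply Real.exp_le_exp.2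
          push_cast
          nlinarith
        _ = (1 - q) * q ^ n * exp (a * ((n + 1 : ℕ) : ℝ) - A) ^ 2 := by
          have e2 : q ^ n = exp ((b - 2 * a) * n) := by
            rw [hq, ← Real.exp_nat_mul]
            ring_nf
          have e3 : exp (a * ((n + 1 : ℕ) : ℝ) - A) ^ 2 = exp (2 * (a * ((n + 1 : ℕ) : ℝ) - A)) := by
            rw [← Real.exp_nat_mul]
            norm_num
          rw [e2, e3, mul_assoc, ← Real.exp_add]
        _ ≤ (1 - q) * q ^ n * LL c (m + t - (n + 1)) (m + t) ^ 2 := by gcongr)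
    (fun z hz => by
      rw [mem_ball]
      exact hsm z hz _ (hE.mem _))
  -- the critical point is in one of the sets
  obtain ⟨n, hn1, hn2, hn3⟩ : ∃ n, 1 ≤ n ∧ n ≤ p ∧ p ∣ m + t - n := by
    have h1 := Nat.mod_lt (m + t) (show 0 < p by omega)
    have h2 := Nat.mod_add_div (m + t) p
    rcases Nat.eq_zero_or_pos ((m + t) % p) with h3 | h3
    · refine ⟨p, hp, le_rfl, (m + t) / p - 1, ?_⟩
      rw [Nat.mul_sub, mul_one]
      omega
    · refine ⟨(m + t) % p, h3, h1.le, (m + t) / p, ?_⟩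
      omega
  obtain ⟨-, h0⟩ := key n (by omega)
  apply h0 hn1
  show (0 : ℂ) ∈ E (m + (t - n))
  have e1 : m + (t - n) = m + t - n := by omega
  obtain ⟨k, hk⟩ := hn3
  rw [e1, hk]
  have h1 := hE.per_mul 0 k
  rw [zero_add] at h1
  rw [h1]
  exact hE.zero

end Pool.Agent.H47.SP
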