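import Pool.Agent.H47.SP.Real
import Pool.Agent.R240.Res4

set_option autoImplicit false

/-!
# Superattracting parameters near parameters with subexponential growth
-/

open Complex Metric Set Filter Topology N62a1eb23

namespace Pool.Agent.H47.SP

open Pool.Agent.H712R2 (P P_succ P_zero P_one fc)
open Pool.Agent.Y736.HL

/-- variation of constants -/
theorem duhamel' (c : ℂ) {D : ℕ → ℝ} {e : ℝ} (h0 : D 0 = 0)
    (hD : ∀ k, D (k + 1) ≤ ‖2 * P 2 k c‖ * D k + D k ^ 2 + e) (k : ℕ) :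
    D k ≤ ∑ j ∈ Finset.range k, LL c (j + 1) k * (e + D j ^ 2) := by
  induction k with
  | zero => simp [h0]
  | succ k ih =>
    rw [Finset.sum_range_succ, LL_self, one_mul]
    have h2 : ∑ j ∈ Finset.range k, LL c (j + 1) (k + 1) * (e + D j ^ 2) =
        ‖2 * P 2 k c‖ * ∑ j ∈ Finset.range k, LL c (j + 1) k * (e + D j ^ 2) := by
      rw [Finset.mul_sum]
      apply Finset.sum_congr rfl
      intro j hj
      rw [LL_succ c (Finset.mem_range.1 hj)]
      ring
    rw [h2]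
    have h3 := mul_le_mul_of_nonneg_left ih (norm_nonneg (2 * P 2 k c))
    linarith [hD k]

/-- orbits stay together as long as `4 C² e TT L n ≤ 1` -/
theorem close' {c : ℂ} {C L : ℝ} (hL : 1 ≤ L) (hC : 0 < C)
    (hLL : ∀ m n, m ≤ n → LL c m n ≤ C * L ^ (n - m)) {D : ℕ → ℝ} {e : ℝ} (he : 0 ≤ e)
    (h0 : D 0 = 0) (hDn : ∀ k, 0 ≤ D k)
    (hD : ∀ k, D (k + 1) ≤ ‖2 * P 2 k c‖ * D k + D k ^ 2 + e) {n : ℕ}
    (hn : 4 * C ^ 2 * e * TT L n ≤ 1) :
    ∀ k, k ≤ n → D k ≤ 2 * C * e * SS L k := by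
  intro k
  induction k using Nat.strong_induction_on with
  | _ k ih =>
    intro hk
    have h1 := duhamel' c h0 hD k
    have h2 : ∀ j ∈ Finset.range k, LL c (j + 1) k * (e + D j ^ 2) ≤
        C * e * L ^ (k - 1 - j) + C * e * (4 * C ^ 2 * e * SS L j) * SS L k := by
      intro j hj
      have hjk := Finset.mem_range.1 hj
      have h3 := ih j hjk (hjk.le.trans hk)
      have h4 : D j ^ 2 ≤ (2 * C * e * SS L j) ^ 2 :=
        pow_le_pow_left₀ (hDn j) h3 2
      have h5 : LL c (j + 1) k ≤ C * L ^ (k - 1 - j) := by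
        have := hLL (j + 1) k hjk
        rwa [show k - (j + 1) = k - 1 - j by omega] at this
      have hLp : 0 ≤ L ^ (k - 1 - j) := by positivity
      have hS := SS_nonneg hL j
      have h6 : L ^ (k - 1 - j) * SS L j ≤ SS L k := by
        refine le_trans ?_ (SS_shift hL hjk.le)
        apply mul_le_mul_of_nonneg_right _ hS
        exact pow_le_pow_right₀ hL (by omega)
      calc LL c (j + 1) k * (e + D j ^ 2)
          ≤ C * L ^ (k - 1 - j) * (e + (2 * C * e * SS L j) ^ 2) := by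
            apply mul_le_mul h5 (by linarith) (by positivity) (by positivity)
        _ = C * e * L ^ (k - 1 - j) + C * e * (4 * C ^ 2 * e * SS L j) *
            (L ^ (k - 1 - j) * SS L j) := by ring
        _ ≤ _ := by
            apply add_le_add_right
            apply mul_le_mul_of_nonneg_left h6
            positivity
    have h3 := Finset.sum_le_sum h2
    rw [Finset.sum_add_distrib, ← Finset.mul_sum, SS_reflect, ← Finset.sum_mul, ← Finset.mul_sum,
      ← Finset.mul_sum] at h3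
    have h4 : 4 * C ^ 2 * e * ∑ j ∈ Finset.range k, SS L j ≤ 1 := by
      refine le_trans ?_ hn
      apply mul_le_mul_of_nonneg_left (TT_mono hL hk)
      positivity
    have hS := SS_nonneg hL k
    have h5 : C * e * (4 * C ^ 2 * e * ∑ j ∈ Finset.range k, SS L j) * SS L k ≤
        C * e * 1 * SS L k := by
      apply mul_le_mul_of_nonneg_right _ hS
      exact mul_le_mul_of_nonneg_left h4 (by positivity)
    linarith

/-- a parameter with an iterate mapping a disc into itself -/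
theorem mem_of_ball {c : ℂ} {n : ℕ} (hn : 1 ≤ n) {ρ : ℝ} (hρ : 0 ≤ ρ)
    (h : ∀ z ∈ closedBall (0 : ℂ) ρ, (fun z : ℂ => z ^ 2 + c)^[n] z ∈ closedBall (0 : ℂ) ρ) :
    c ∈ multibrotSet 2 :=
  mem_of_bounded hn isBounded_closedBall (mem_closedBall_self hρ) h

/-- **The critical orbit of a boundary parameter with subexponential growth does not return
exponentially close to the critical point.** -/
theorem lower {c : ℂ} (hc : c ∉ interior (multibrotSet 2)) {C L : ℝ} (hL : 1 < L) (hC : 0 < C)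
    (hLL : ∀ m n, m ≤ n → LL c m n ≤ C * L ^ (n - m)) :
    ∃ κ : ℝ, 0 < κ ∧ ∀ n : ℕ, 1 ≤ n → κ / L ^ n < ‖P 2 n c‖ := by
  have hL0 : 0 < L - 1 := by linarith
  obtain ⟨κ, hκ⟩ : ∃ κ : ℝ, κ = min ((L - 1) / (8 * C)) ((L - 1) / (4 * C)) := ⟨_, rfl⟩
  have hκ0 : 0 < κ := by rw [hκ]; positivity
  have hκ1 : 8 * C * κ ≤ L - 1 := by
    have : κ ≤ (L - 1) / (8 * C) := by rw [hκ]; exact min_le_left _ _
    rw [le_div_iff₀ (by positivity)] at this
    linarith
  refine ⟨κ / 2, by positivity, fun n hn => ?_⟩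
  by_contra hcon
  push Not at hcon
  apply hc
  obtain ⟨ρ, hρ⟩ : ∃ ρ : ℝ, ρ = κ / L ^ n := ⟨_, rfl⟩
  have hLn : 1 ≤ L ^ n := one_le_pow₀ hL.le
  have hρ0 : 0 < ρ := by rw [hρ]; positivity
  have hρL : ρ * L ^ n = κ := by rw [hρ]; field_simp
  rw [mem_interior]
  refine ⟨ball c (ρ ^ 2), ?_, isOpen_ball, mem_ball_self (by positivity)⟩
  intro c' hc'
  rw [mem_ball, dist_eq_norm] at hc'
  apply mem_of_ball hn hρ0.le
  intro z hz
  rw [mem_closedBall, dist_zero_right] at hz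
  -- the distances of the orbits
  obtain ⟨D, hD⟩ : ∃ D : ℕ → ℝ, D = fun k => if k = 0 then 0 else
      ‖(fun z : ℂ => z ^ 2 + c')^[k] z - P 2 k c‖ := ⟨_, rfl⟩
  have hD0 : D 0 = 0 := by rw [hD]; simp
  have hDs : ∀ k, D (k + 1) = ‖(fun z : ℂ => z ^ 2 + c')^[k + 1] z - P 2 (k + 1) c‖ := by
    intro k
    rw [hD]
    simp
  have hDn : ∀ k, 0 ≤ D k := by
    intro k
    rcases Nat.eq_zero_or_pos k with rfl | hk
    · exact hD0.ge
    · obtain ⟨j, rfl⟩ : ∃ j, k = j + 1 := ⟨k - 1, by omega⟩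
      rw [hDs]
      exact norm_nonneg _
  have hstep : ∀ k, D (k + 1) ≤ ‖2 * P 2 k c‖ * D k + D k ^ 2 + 2 * ρ ^ 2 := by
    intro k
    rcases Nat.eq_zero_or_pos k with rfl | hk
    · rw [hD0, hDs, P_one le_rfl, Function.iterate_one]
      have e1 : z ^ 2 + c' - c = z ^ 2 + (c' - c) := by ring
      rw [e1]
      have h1 := norm_add_le (z ^ 2) (c' - c)
      rw [norm_pow] at h1
      have h2 : ‖z‖ ^ 2 ≤ ρ ^ 2 := pow_le_pow_left₀ (norm_nonneg _) hz 2
      nlinarith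
    · obtain ⟨j, rfl⟩ : ∃ j, k = j + 1 := ⟨k - 1, by omega⟩
      rw [hDs (j + 1), hDs j, Function.iterate_succ_apply', P_succ]
      obtain ⟨w, hw⟩ : ∃ w, w = (fun z : ℂ => z ^ 2 + c')^[j + 1] z := ⟨_, rfl⟩
      rw [← hw]
      have e1 : w ^ 2 + c' - (P 2 (j + 1) c ^ 2 + c) =
          2 * P 2 (j + 1) c * (w - P 2 (j + 1) c) + (w - P 2 (j + 1) c) ^ 2 + (c' - c) := by ring
      rw [e1]
      have h1 := norm_add_le (2 * P 2 (j + 1) c * (w - P 2 (j + 1) c) + (w - P 2 (j + 1) c) ^ 2)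
        (c' - c)
      have h2 := norm_add_le (2 * P 2 (j + 1) c * (w - P 2 (j + 1) c)) ((w - P 2 (j + 1) c) ^ 2)
      rw [norm_pow, norm_mul] at h2
      nlinarith [sq_nonneg ρ]
  have hTT := TT_le hL n
  have hSS := SS_le hL n
  have hcond : 4 * C ^ 2 * (2 * ρ ^ 2) * TT L n ≤ 1 := by
    have h1 : 4 * C ^ 2 * (2 * ρ ^ 2) * TT L n ≤ 4 * C ^ 2 * (2 * ρ ^ 2) * (L ^ n / (L - 1) ^ 2) :=
      mul_le_mul_of_nonneg_left hTT (by positivity)
    refine h1.trans ?_
    rw [← mul_div_assoc, div_le_one (by positivity)]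
    have h2 : 4 * C ^ 2 * (2 * ρ ^ 2) * L ^ n = 8 * (C * κ) * (C * ρ) := by
      rw [← hρL]
      ring
    rw [h2]
    have h3 : C * ρ ≤ C * κ := by
      apply mul_le_mul_of_nonneg_left _ hC.le
      rw [← hρL]
      exact le_mul_of_one_le_right hρ0.le hLn
    have h4 : 0 < C * κ := by positivity
    have h5 : 0 < C * ρ := by positivity
    nlinarith
  have hfin := close' hL.le hC hLL (by positivity) hD0 hDn hstep hcond n le_rfl
  have h6 : 2 * C * (2 * ρ ^ 2) * SS L n ≤ ρ / 2 := by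
    have h7 : 2 * C * (2 * ρ ^ 2) * SS L n ≤ 2 * C * (2 * ρ ^ 2) * (L ^ n / (L - 1)) :=
      mul_le_mul_of_nonneg_left hSS (by positivity)
    refine h7.trans ?_
    rw [← mul_div_assoc, div_le_iff₀ hL0]
    have h8 : 2 * C * (2 * ρ ^ 2) * L ^ n = 4 * C * κ * ρ := by
      rw [← hρL]
      ring
    rw [h8]
    nlinarith
  obtain ⟨j, rfl⟩ : ∃ j, n = j + 1 := ⟨n - 1, by omega⟩
  rw [hDs] at hfin
  rw [mem_closedBall, dist_zero_right]
  have h9 := norm_add_le ((fun z : ℂ => z ^ 2 + c')^[j + 1] z - P 2 (j + 1) c) (P 2 (j + 1) c)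
  rw [sub_add_cancel] at h9
  have h10 : κ / 2 / L ^ (j + 1) = ρ / 2 := by
    rw [hρ]
    ring
  rw [h10] at hcon
  linarith

/-- **Superattracting parameters are not exponentially close.** -/
theorem not_near {c : ℂ} (hsub : Sub c) (hne : ∀ n, 1 ≤ n → P 2 n c ≠ 0)
    {X : ℝ} (hX : 0 < X) : ¬ Pool.Agent.R240.Res.Near 2 X c := by
  by_cases hi : c ∈ interior (multibrotSet 2)
  · exact Pool.Agent.R240.Res.interior_far le_rfl hi hne hX
  unfold Pool.Agent.R240.Res.Near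
  rw [not_frequently]
  obtain ⟨L, hL⟩ : ∃ L : ℝ, L = Real.exp (X / 3) := ⟨_, rfl⟩
  have hL1 : 1 < L := by rw [hL]; exact Real.one_lt_exp_iff.2 (by positivity)
  have hL0 : 0 < L - 1 := by linarith
  obtain ⟨C, hC, hLL⟩ := hsub L hL1
  obtain ⟨κ, hκ, hlow⟩ := lower hi hL1 hC hLL
  have hLn : ∀ n : ℕ, L ^ n = Real.exp (X / 3 * n) := by
    intro n
    rw [hL, ← Real.exp_nat_mul]
    ring_nf
  have hlim : Tendsto (fun n : ℕ => Real.exp (-(X / 3 * n))) atTop (𝓝 0) := by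
    apply Real.tendsto_exp_neg_atTop_nhds_zero.comp
    exact Tendsto.const_mul_atTop (by positivity) tendsto_natCast_atTop_atTop
  have hev1 : ∀ᶠ n : ℕ in atTop, Real.exp (-(X / 3 * n)) < κ / (2 * C / (L - 1)) :=
    hlim.eventually (gt_mem_nhds (by positivity))
  have hev2 : ∀ᶠ n : ℕ in atTop, Real.exp (-(X / 3 * n)) < (L - 1) ^ 2 / (4 * C ^ 2) :=
    hlim.eventually (gt_mem_nhds (by positivity))
  filter_upwards [hev1, hev2, eventually_ge_atTop 1] with n h1 h2 hn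
  rintro ⟨a, ha, hac⟩
  rw [lt_div_iff₀ (by positivity)] at h1 h2
  have hxn : (0 : ℝ) ≤ X * n := by positivity
  have e1 : Real.exp (-(X * n)) * L ^ n = Real.exp (-(X / 3 * n)) * Real.exp (-(X / 3 * n)) := by
    rw [hLn, ← Real.exp_add, ← Real.exp_add]
    ring_nf
  have e2 : Real.exp (-(X / 3 * n)) ≤ 1 := Real.exp_le_one_iff.2 (by
    have : (0 : ℝ) ≤ X / 3 * n := by positivity
    linarith)
  have e0 := Real.exp_pos (-(X / 3 * n))
  have hprod : ‖a - c‖ * L ^ n ≤ Real.exp (-(X / 3 * n)) * Real.exp (-(X / 3 * n)) := by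
    rw [← e1]
    exact mul_le_mul_of_nonneg_right hac (by positivity)
  have hcond : 4 * C ^ 2 * ‖a - c‖ * TT L n ≤ 1 := by
    have h3 : 4 * C ^ 2 * ‖a - c‖ * TT L n ≤ 4 * C ^ 2 * ‖a - c‖ * (L ^ n / (L - 1) ^ 2) :=
      mul_le_mul_of_nonneg_left (TT_le hL1 n) (by positivity)
    refine h3.trans ?_
    rw [← mul_div_assoc, div_le_one (by positivity)]
    have h4 : 4 * C ^ 2 * ‖a - c‖ * L ^ n = 4 * C ^ 2 * (‖a - c‖ * L ^ n) := by ring
    rw [h4]
    have h5 : 4 * C ^ 2 * (‖a - c‖ * L ^ n) ≤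
        4 * C ^ 2 * (Real.exp (-(X / 3 * n)) * Real.exp (-(X / 3 * n))) :=
      mul_le_mul_of_nonneg_left hprod (by positivity)
    have h6 : 4 * C ^ 2 * (Real.exp (-(X / 3 * n)) * Real.exp (-(X / 3 * n))) ≤
        4 * C ^ 2 * Real.exp (-(X / 3 * n)) := by
      apply mul_le_mul_of_nonneg_left _ (by positivity)
      exact mul_le_of_le_one_right e0.le e2
    linarith
  have h7 := close (c₀ := c) (c := a) hL1.le hC hLL hcond n le_rfl
  rw [ha, zero_sub, norm_neg] at h7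
  have h8 := hlow n hn
  have h9 : 2 * C * ‖a - c‖ * SS L n ≤ 2 * C * ‖a - c‖ * (L ^ n / (L - 1)) :=
    mul_le_mul_of_nonneg_left (SS_le hL1 n) (by positivity)
  have h10 : 2 * C * ‖a - c‖ * (L ^ n / (L - 1)) = 2 * C / (L - 1) * (‖a - c‖ * L ^ n) := by
    ring
  have h11 : 2 * C / (L - 1) * (‖a - c‖ * L ^ n) ≤
      2 * C / (L - 1) * (Real.exp (-(X / 3 * n)) * Real.exp (-(X / 3 * n))) :=
    mul_le_mul_of_nonneg_left hprod (by positivity)
  have h12 : κ / L ^ n = κ * Real.exp (-(X / 3 * n)) := by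
    rw [hLn, Real.exp_neg]
    rfl
  rw [h12] at h8
  have h13 : 2 * C / (L - 1) * (Real.exp (-(X / 3 * n)) * Real.exp (-(X / 3 * n))) <
      κ * Real.exp (-(X / 3 * n)) := by
    have := mul_lt_mul_of_pos_right h1 e0
    calc _ = Real.exp (-(X / 3 * n)) * (2 * C / (L - 1)) * Real.exp (-(X / 3 * n)) := by ring
      _ < _ := this
  linarith

end Pool.Agent.H47.SP
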