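import Pool.Agent.H47.SP.Near
import Pool.Agent.H47.SP.FlatSub
import Pool.Agent.N228.DQ.Good

set_option autoImplicit false

/-!
# Parameters with subexponential growth are remote
-/

open Complex Metric Set Filter Topology N62a1eb23

namespace Pool.Agent.H47.SP

open Pool.Agent.H713R2
open Pool.Agent.H712R2 (P)
open Pool.Agent.R449.MB (FewAt MomAt few_of mom_of)

theorem ord_of_sub {ψ : ℂ → ℂ} (hψ : IsExteriorMap (multibrotSet 2) ψ) {c : ℂ}
    (hc : c ∈ multibrotSet 2) (h : Sub c) (hne : ∀ n, 1 ≤ n → P 2 n c ≠ 0) {σ : ℝ} (hσ : 0 < σ) :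
    Pool.Agent.N228.DQ.Ord 2 ψ σ c := by
  have hlog2 : 0 < Real.log 2 := Real.log_pos (by norm_num)
  have hfew : ∀ κ : ℝ, 0 < κ → FewAt 2 κ c := by
    intro κ hκ
    refine few_of (κ' := κ + 1) (X := Real.log 2 / (2 * κ)) le_rfl hψ hc hne hκ (by linarith) ?_
      (not_big_of_sub hψ hc h _ (by linarith)) (not_near h hne (by positivity))
    have e1 : Real.log 2 / (2 * κ) * κ = Real.log 2 / 2 := by field_simp
    rw [e1]
    push_cast
    linarith
  apply Pool.Agent.N228.DQ.ord_of le_rfl hψ hc hσ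
  · intro κ hκ _
    exact ⟨hfew κ hκ, mom_of le_rfl hne hκ (lt_add_one _) (hfew _ (by linarith))⟩
  · intro κ hκ _
    exact not_big_of_sub hψ hc h _ hκ
  · intro X hX
    refine not_near h hne (lt_of_le_of_lt ?_ hX)
    positivity

end Pool.Agent.H47.SP
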