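import Pool.Prelude.Def_F_c31e40fa
import Pool.Agent.H47.SP.Rem

set_option autoImplicit false

/-!
# Remote parameters: definitions
-/

open Filter Topology Set Metric MeasureTheory Complex N62a1eb23

namespace Pool.Agent.H47.SP.Out

open Pool.Agent.H713R2

/-- The map `z ↦ z ^ 2 + c`. -/
def f (c : ℂ) : ℂ → ℂ := fun z => z ^ 2 + c

/-- The harmonic measure (from infinity), up to the factor `2π`, of the disc of radius `r` about `c₀`:
the length of the set of angles `t ∈ (0, 2π]` of the external rays of the Mandelbrot set which land at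
distance less than `r` from `c₀`. Here `ψ` is the exterior map of the Mandelbrot set. -/
noncomputable def harm (ψ : ℂ → ℂ) (c₀ : ℂ) (r : ℝ) : ℝ :=
  (volume {t : ℝ | t ∈ Ioc 0 (2 * Real.pi) ∧ ∃ ζ ∈ ball c₀ r,
    Tendsto (fun ρ : ℝ => ψ (ρ * exp (t * I))) (𝓝[>] 1) (𝓝 ζ)}).toReal

/-- The maximum over the disc of radius `r` about `c₀` of Green's function of the complement of the
Mandelbrot set: Green's function is `log ‖w‖` at the point `ψ w`. -/
noncomputable def green (ψ : ℂ → ℂ) (c₀ : ℂ) (r : ℝ) : ℝ :=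
  sSup {x | ∃ w : ℂ, 1 < ‖w‖ ∧ ‖ψ w - c₀‖ ≤ r ∧ Real.log ‖w‖ = x}

/-- **Remote parameters.** Here `ψ` is the exterior map of the Mandelbrot set. A parameter `a` with
`f_a^n (0) = 0` is superattracting, its period divides `n`. -/
structure Remote (ψ : ℂ → ℂ) (c : ℂ) : Prop where
  /-- The derivatives of all iterates at all points of the critical orbit grow subexponentially,
  uniformly in the point. -/
  uniform : ∀ X : ℝ, 0 < X → ∃ C : ℝ, ∀ m n : ℕ,
    ‖deriv ((f c)^[n]) ((f c)^[m] 0)‖ ≤ C * Real.exp (X * n)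
  /-- The harmonic measure and Green's function of small discs decay faster than all powers of the
  radius. -/
  slim : ∀ κ : ℝ, 0 < κ → ∀ᶠ r : ℝ in 𝓝[>] 0, harm ψ c r < r ^ κ ∧ green ψ c r < r ^ κ
  /-- For all `κ > 0` the small discs of radius `r` about `c` contain at most `2 ^ n * r ^ κ`
  superattracting parameters of period dividing `n`, for all `n` at the same time. -/
  few : ∀ κ : ℝ, 0 < κ → ∀ᶠ r : ℝ in 𝓝[>] 0, ∀ n : ℕ, 1 ≤ n →
    (({a : ℂ | (f a)^[n] 0 = 0} ∩ ball c r).ncard : ℝ) ≤ (2 : ℝ) ^ n * r ^ κ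
  /-- The superattracting parameters of period dividing `n` are not exponentially near. -/
  far : ∀ X : ℝ, 0 < X → ∀ᶠ n : ℕ in atTop, ∀ a : ℂ, (f a)^[n] 0 = 0 →
    Real.exp (-(X * n)) < dist a c

theorem inter_eq (n : ℕ) (c : ℂ) (r : ℝ) :
    {a : ℂ | (f a)^[n] 0 = 0} ∩ ball c r = Pool.Agent.R240.Sparse.cen 2 n c r := by
  ext a
  exact and_comm

/-- Subexponential growth along the critical orbit implies remoteness. -/
theorem remote_of_sub {ψ : ℂ → ℂ} (hψ : IsExteriorMap (multibrotSet 2) ψ) {c : ℂ}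
    (hc : c ∈ multibrotSet 2) (h : Sub c) (hne : ∀ n : ℕ, 1 ≤ n → (f c)^[n] 0 ≠ 0) :
    Remote ψ c := by
  have hlog2 : 0 < Real.log 2 := Real.log_pos (by norm_num)
  have hord : ∀ σ : ℝ, 0 < σ → Pool.Agent.N228.DQ.Ord 2 ψ σ c := fun σ hσ =>
    ord_of_sub hψ hc h hne hσ
  have hX : ∀ X : ℝ, 0 < X → Real.log 2 / (Real.log 2 / X * 2) < X := by
    intro X hX
    rw [div_lt_iff₀ (by positivity)]
    have : X * (Real.log 2 / X * 2) = 2 * Real.log 2 := by field_simp
    rw [this]
    linarith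
  have hcast : Real.log ((2 : ℕ) : ℝ) = Real.log 2 := by norm_num
  refine ⟨?_, ?_, ?_, ?_⟩
  · intro X hX0
    obtain ⟨C, _, hC⟩ := h (Real.exp X) (Real.one_lt_exp_iff.2 hX0)
    refine ⟨C, fun m n => ?_⟩
    have h1 := hC m (m + n) (by omega)
    rw [← Pool.Agent.Y736.HL.norm_deriv_iter, Nat.add_sub_cancel_left, ← Real.exp_nat_mul,
      mul_comm (n : ℝ) X] at h1
    exact h1
  · intro κ hκ0
    exact (hord (κ + 1) (by linarith)).slim κ hκ0 (by linarith)
  · intro κ hκ0
    filter_upwards [(hord (κ + 1) (by linarith)).few κ hκ0 (by linarith)] with r h3 n hn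
    rw [inter_eq]
    exact h3 n hn
  · intro X hX0
    filter_upwards [(hord (Real.log 2 / X * 2) (by positivity)).far X
      (by rw [hcast]; exact hX X hX0)] with n hn a ha
    rw [dist_eq_norm]
    exact hn.1 a ha

end Pool.Agent.H47.SP.Out
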